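import Mathlib
import Pool.Agent.Lib.CubeBal.Base

/-!
# Balanced vertex sets in the cube: products and conference blocks

Products of balanced sets, and balanced sets obtained from a symmetric conference matrix.
-/

open Finset Matrix

namespace Pool.Agent.CubeBal

/-- There is a symmetric conference matrix of order `c`: a symmetric `c × c` matrix with zero
diagonal, entries `±1` off the diagonal and pairwise orthogonal rows. -/
def HasSymmetricConference (c : ℕ) : Prop :=
  ∃ C : Matrix (Fin c) (Fin c) ℤ, Cᵀ = C ∧ (∀ i, C i i = 0) ∧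
    (∀ i j, i ≠ j → C i j = 1 ∨ C i j = -1) ∧ (∀ i j, i ≠ j → ∑ k, C i k * C j k = 0)

theorem Bal.mono {n R S : ℕ} (h : Bal n R) (hRS : R ≤ S) : Bal n S := by
  obtain ⟨B, hB, hd⟩ := h
  exact ⟨B, hB, fun a ha b hb => (hd a ha b hb).trans hRS⟩

/-- Product of balanced sets. -/
theorem Bal.add {m n R S : ℕ} (h1 : Bal m R) (h2 : Bal n S) : Bal (m + n) (R + S) := by
  classical
  obtain ⟨B, hB, hd⟩ := h1
  obtain ⟨D, hD, hd'⟩ := h2
  set f : (Fin m → Bool) × (Fin n → Bool) → (Fin (m + n) → Bool) :=
    fun p => Fin.append p.1 p.2 with hf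
  have hinj : Function.Injective f := by
    rintro ⟨a, x⟩ ⟨b, y⟩ h
    simp only [hf] at h
    refine Prod.ext ?_ ?_
    · funext i
      have := congrFun h (Fin.castAdd n i)
      simpa using this
    · funext i
      have := congrFun h (Fin.natAdd m i)
      simpa using this
  refine ⟨(B ×ˢ D).image f, isBalanced_of ?_ ?_, ?_⟩
  · exact (hB.1.product hD.1).image f
  · intro i
    rw [Finset.sum_image (fun a _ b _ hab => hinj hab), Finset.sum_product]
    refine Fin.addCases (fun j => ?_) (fun j => ?_) i
    · have h1 := sg_sum_of_isBalanced hB j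
      have h2 : ∀ b ∈ B, ∑ x ∈ D, sg (f (b, x)) (Fin.castAdd n j) = (D.card : ℤ) * sg b j := by
        intro b _
        simp [hf, sg]
      rw [Finset.sum_congr rfl h2, ← Finset.mul_sum, h1, mul_zero]
    · have h1 := sg_sum_of_isBalanced hD j
      apply Finset.sum_eq_zero
      intro b _
      have h2 : ∀ x ∈ D, sg (f (b, x)) (Fin.natAdd m j) = sg x j := by
        intro x _
        simp [hf, sg]
      rw [Finset.sum_congr rfl h2, h1]
  · intro a ha b hb
    rw [Finset.mem_image] at ha hb
    obtain ⟨⟨a, x⟩, ha, rfl⟩ := ha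
    obtain ⟨⟨b, y⟩, hb, rfl⟩ := hb
    rw [Finset.mem_product] at ha hb
    have h1 := hd a ha.1 b hb.1
    have h1' := hd' x ha.2 y hb.2
    have h2 : ip (f (a, x)) (f (b, y)) = ip a b + ip x y := by
      unfold ip
      rw [Fin.sum_univ_add]
      congr 1
      · apply Finset.sum_congr rfl
        intro i _
        simp [hf, sg]
      · apply Finset.sum_congr rfl
        intro i _
        simp [hf, sg]
    rw [ip_eq, ip_eq, ip_eq] at h2
    push_cast at h2
    omega

/-- A family of sign vectors with zero sum and large inner products gives a balanced set. -/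
theorem bal_of_family {ι : Type*} [Fintype ι] [Nonempty ι] {n R : ℕ} (g : ι → Fin n → ℤ)
    (h1 : ∀ x i, g x i = 1 ∨ g x i = -1) (hsum : ∀ i, ∑ x, g x i = 0)
    (hip : ∀ x y, x ≠ y → (n : ℤ) - 2 * R ≤ ∑ i, g x i * g y i)
    (hlt : ∀ x y, x ≠ y → ∑ i, g x i * g y i < n) : Bal n R := by
  classical
  let v : ι → (Fin n → Bool) := fun x i => decide (g x i = -1)
  have hv : ∀ x i, sg (v x) i = g x i := by
    intro x i
    have h0 : sg (v x) i = if g x i = -1 then -1 else 1 := by simp [sg, v]
    rw [h0]
    rcases h1 x i with h | h <;> rw [h] <;> norm_num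
  have hipv : ∀ x y, ip (v x) (v y) = ∑ i, g x i * g y i := by
    intro x y
    unfold ip
    simp_rw [hv]
  have hinj : Function.Injective v := by
    intro x y hxy
    by_contra hne
    have h2 := hlt x y hne
    rw [← hipv, hxy, ip_self] at h2
    omega
  refine ⟨Finset.univ.image v, isBalanced_of ?_ ?_, ?_⟩
  · exact Finset.univ_nonempty.image v
  · intro i
    rw [Finset.sum_image (fun a _ b _ hab => hinj hab)]
    simp_rw [hv]
    exact hsum i
  · intro a ha b hb
    rw [Finset.mem_image] at ha hb
    obtain ⟨x, _, rfl⟩ := ha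
    obtain ⟨y, _, rfl⟩ := hb
    by_cases hxy : x = y
    · subst hxy
      rw [hammingDist_self]; omega
    · have h2 := hip x y hxy
      rw [← hipv, ip_eq] at h2
      omega

/-! ### The conference blocks -/

section conference

variable {n : ℕ} (S : Fin n → Fin n → ℤ)

/-- The sign vector `s_x + δ e_x`. -/
def coreVec (x : Fin n) (δ : ℤ) : Fin n → ℤ := fun z => S x z + if z = x then δ else 0

variable {S}

theorem coreVec_sum (hs : ∀ x y, S x y = S y x)
    (ho : ∀ x y, x ≠ y → ∑ z, S x z * S y z = -1) {x y : Fin n} (hxy : x ≠ y) (δ ε : ℤ) :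
    ∑ z, coreVec S x δ z * coreVec S y ε z = -1 + (δ + ε) * S x y := by
  have h1 : ∀ z, coreVec S x δ z * coreVec S y ε z =
      S x z * S y z + (if z = y then S x z * ε else 0) + (if z = x then δ * S y z else 0) := by
    intro z
    unfold coreVec
    by_cases hx : z = x
    · subst hx
      rw [if_pos rfl, if_neg hxy, if_neg hxy, if_pos rfl]
      ring
    · by_cases hy : z = y
      · subst hy
        rw [if_neg hx, if_pos rfl, if_pos rfl, if_neg hx]
        ring
      · rw [if_neg hx, if_neg hy, if_neg hy, if_neg hx]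
        ring
  simp_rw [h1, Finset.sum_add_distrib]
  rw [ho x y hxy, Finset.sum_ite_eq', Finset.sum_ite_eq', if_pos (Finset.mem_univ _),
    if_pos (Finset.mem_univ _), hs y x]
  ring

theorem coreVec_or (h0 : ∀ x, S x x = 0) (h1 : ∀ x y, x ≠ y → S x y = 1 ∨ S x y = -1)
    {x : Fin n} {δ : ℤ} (hδ : δ = 1 ∨ δ = -1) (z : Fin n) :
    coreVec S x δ z = 1 ∨ coreVec S x δ z = -1 := by
  unfold coreVec
  by_cases hx : z = x
  · subst hx
    rw [if_pos rfl, h0, zero_add]
    exact hδ
  · rw [if_neg hx, add_zero]
    exact h1 x z (fun h => hx h.symm)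

/-- The sum `⟨s_x + δ e_x, s_x - δ e_x⟩ = n - 2`. -/
theorem coreVec_self (h0 : ∀ x, S x x = 0) (h1 : ∀ x y, x ≠ y → S x y = 1 ∨ S x y = -1)
    {x : Fin n} {δ : ℤ} (hδ : δ = 1 ∨ δ = -1) :
    ∑ z, coreVec S x δ z * coreVec S x (-δ) z = (n : ℤ) - 2 := by
  have h2 : ∀ z, coreVec S x δ z * coreVec S x (-δ) z = 1 + (if z = x then -2 else 0) := by
    intro z
    unfold coreVec
    by_cases hx : z = x
    · subst hx
      rw [if_pos rfl, if_pos rfl, if_pos rfl, h0]
      rcases hδ with h | h <;> rw [h] <;> norm_num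
    · rw [if_neg hx, if_neg hx, if_neg hx]
      rcases h1 x z (fun h => hx h.symm) with h | h <;> rw [h] <;> norm_num
  simp_rw [h2, Finset.sum_add_distrib]
  rw [Finset.sum_ite_eq', if_pos (Finset.mem_univ _)]
  simp
  ring

end conference

/-- The sign `±1` attached to a Boolean. -/
def bs (δ : Bool) : ℤ := if δ then 1 else -1

theorem bs_or (δ : Bool) : bs δ = 1 ∨ bs δ = -1 := by cases δ <;> simp [bs]

theorem bs_of_ne {δ ε : Bool} (h : δ ≠ ε) : bs ε = - bs δ := by
  cases δ <;> cases ε <;> simp_all [bs]

theorem sum_bs : ∑ δ : Bool, bs δ = 0 := by simp [bs]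

/-- Normal form of a symmetric conference matrix of order `n + 1`: its core. -/
theorem exists_core {n : ℕ} (h : HasSymmetricConference (n + 1)) :
    ∃ S : Fin n → Fin n → ℤ, (∀ x, S x x = 0) ∧ (∀ x y, S x y = S y x) ∧
      (∀ x y, x ≠ y → S x y = 1 ∨ S x y = -1) ∧ (∀ x, ∑ z, S x z = 0) ∧
      (∀ x y, x ≠ y → ∑ z, S x z * S y z = -1) := by
  obtain ⟨C, hC, h0, h1, ho⟩ := h
  have hsymm : ∀ i j, C i j = C j i := fun i j => by
    conv_lhs => rw [← hC]
    rfl
  have hsq : ∀ x : Fin n, C 0 x.succ * C 0 x.succ = 1 := by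
    intro x
    rcases h1 0 x.succ (Fin.succ_ne_zero x).symm with h | h <;> rw [h] <;> norm_num
  refine ⟨fun x y => C 0 x.succ * C x.succ y.succ * C 0 y.succ, ?_, ?_, ?_, ?_, ?_⟩
  · intro x
    simp [h0]
  · intro x y
    beta_reduce
    rw [hsymm x.succ y.succ]
    ring
  · intro x y hxy
    beta_reduce
    rcases h1 0 x.succ (Fin.succ_ne_zero x).symm with h | h <;>
      rcases h1 0 y.succ (Fin.succ_ne_zero y).symm with h' | h' <;>
      rcases h1 x.succ y.succ (fun hh => hxy (Fin.succ_injective _ hh)) with h'' | h'' <;>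
      rw [h, h', h''] <;> norm_num
  · intro x
    have h2 := ho x.succ 0 (Fin.succ_ne_zero x)
    rw [Fin.sum_univ_succ, h0 0, mul_zero, zero_add] at h2
    have h3 : ∀ z : Fin n, C 0 x.succ * C x.succ z.succ * C 0 z.succ =
        C 0 x.succ * (C x.succ z.succ * C 0 z.succ) := fun z => by ring
    simp_rw [h3]
    rw [← Finset.mul_sum, h2, mul_zero]
  · intro x y hxy
    have h2 := ho x.succ y.succ (fun hh => hxy (Fin.succ_injective _ hh))
    rw [Fin.sum_univ_succ, hsymm x.succ 0, hsymm y.succ 0] at h2
    have h3 : ∀ z : Fin n, (C 0 x.succ * C x.succ z.succ * C 0 z.succ) *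
        (C 0 y.succ * C y.succ z.succ * C 0 z.succ) =
        (C 0 x.succ * C 0 y.succ) * (C x.succ z.succ * C y.succ z.succ) := by
      intro z
      have := hsq z
      linear_combination (C 0 x.succ * C 0 y.succ * C x.succ z.succ * C y.succ z.succ) * this
    simp_rw [h3]
    rw [← Finset.mul_sum]
    have h4 : ∑ z : Fin n, C x.succ z.succ * C y.succ z.succ = -(C 0 x.succ * C 0 y.succ) := by
      linarith
    rw [h4]
    have h5 := hsq x
    have h6 := hsq y
    linear_combination (-(C 0 y.succ * C 0 y.succ)) * h5 - h6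

/-- The balanced set of dimension `n` obtained from the core of a symmetric conference matrix of
order `n + 1`; the diameter is at most `(n + 3) / 2`. -/
theorem bal_of_core {n R : ℕ} (hn : 1 ≤ n) (hR : n + 3 ≤ 2 * R)
    (h : HasSymmetricConference (n + 1)) : Bal n R := by
  obtain ⟨S, h0, hs, h1, hsum, ho⟩ := exists_core h
  have : Nonempty (Fin n) := ⟨⟨0, hn⟩⟩
  refine bal_of_family (ι := Fin n × Bool) (fun p => coreVec S p.1 (bs p.2)) ?_ ?_ ?_ ?_
  · intro p i
    exact coreVec_or h0 h1 (bs_or _) i
  · intro i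
    rw [Fintype.sum_prod_type]
    have h2 : ∀ x : Fin n, ∑ δ : Bool, coreVec S x (bs δ) i = 2 * S i x := by
      intro x
      unfold coreVec
      rw [Finset.sum_add_distrib, hs i x]
      by_cases hx : i = x
      · simp only [hx, if_true, sum_bs, Finset.sum_const, Finset.card_univ, Fintype.card_bool]
        ring
      · simp only [hx, if_false, Finset.sum_const, Finset.card_univ, Fintype.card_bool]
        ring
    simp_rw [h2]
    rw [← Finset.mul_sum, hsum, mul_zero]
  · rintro ⟨x, δ⟩ ⟨y, ε⟩ hne
    by_cases hxy : x = y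
    · subst hxy
      have hδ : δ ≠ ε := fun h => hne (by rw [h])
      simp only
      rw [bs_of_ne hδ, coreVec_self h0 h1 (bs_or _)]
      have : (n : ℤ) + 3 ≤ 2 * R := by exact_mod_cast hR
      linarith
    · simp only
      rw [coreVec_sum hs ho hxy]
      have hR' : (n : ℤ) + 3 ≤ 2 * R := by exact_mod_cast hR
      rcases bs_or δ with hd | hd <;> rcases bs_or ε with he | he <;>
        rcases h1 x y hxy with hS | hS <;> rw [hd, he, hS] <;> linarith
  · rintro ⟨x, δ⟩ ⟨y, ε⟩ hne
    by_cases hxy : x = y
    · subst hxy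
      have hδ : δ ≠ ε := fun h => hne (by rw [h])
      simp only
      rw [bs_of_ne hδ, coreVec_self h0 h1 (bs_or _)]
      linarith
    · simp only
      rw [coreVec_sum hs ho hxy]
      have h2 : (2 : ℤ) ≤ n := by
        have h3 : 2 ≤ n := by
          by_contra hcon
          have : n = 1 := by omega
          subst this
          exact hxy (Subsingleton.elim _ _)
        exact_mod_cast h3
      rcases bs_or δ with hd | hd <;> rcases bs_or ε with he | he <;>
        rcases h1 x y hxy with hS | hS <;> rw [hd, he, hS] <;> linarith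

/-- The balanced set of dimension `n + 1` obtained from a symmetric conference matrix of
order `n + 1`; the diameter is at most `(n + 3) / 2`. -/
theorem bal_of_conference {n R : ℕ} (hn : 1 ≤ n) (hR : n + 3 ≤ 2 * R)
    (h : HasSymmetricConference (n + 1)) : Bal (n + 1) R := by
  obtain ⟨S, h0, hs, h1, hsum, ho⟩ := exists_core h
  have : Nonempty (Fin n) := ⟨⟨0, hn⟩⟩
  have key : ∀ (x y : Fin n) (δ ε : Bool),
      ∑ i : Fin (n + 1), (Fin.cons (bs δ) (coreVec S x (bs δ)) : Fin (n + 1) → ℤ) i *
        (Fin.cons (bs ε) (coreVec S y (bs ε)) : Fin (n + 1) → ℤ) i =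
      bs δ * bs ε + ∑ z, coreVec S x (bs δ) z * coreVec S y (bs ε) z := by
    intro x y δ ε
    rw [Fin.sum_univ_succ]
    simp
  refine bal_of_family (ι := Fin n × Bool)
    (fun p => (Fin.cons (bs p.2) (coreVec S p.1 (bs p.2)) : Fin (n + 1) → ℤ)) ?_ ?_ ?_ ?_
  · intro p i
    refine Fin.cases ?_ (fun j => ?_) i
    · simpa using bs_or p.2
    · simpa using coreVec_or h0 h1 (bs_or p.2) j
  · intro i
    rw [Fintype.sum_prod_type]
    refine Fin.cases ?_ (fun j => ?_) i
    · apply Finset.sum_eq_zero
      intro x _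
      simpa using sum_bs
    · have h2 : ∀ x : Fin n, ∑ δ : Bool, coreVec S x (bs δ) j = 2 * S j x := by
        intro x
        unfold coreVec
        rw [Finset.sum_add_distrib, hs j x]
        by_cases hx : j = x
        · simp only [hx, if_true, sum_bs, Finset.sum_const, Finset.card_univ, Fintype.card_bool]
          ring
        · simp only [hx, if_false, Finset.sum_const, Finset.card_univ, Fintype.card_bool]
          ring
      simp only [Fin.cons_succ]
      simp_rw [h2]
      rw [← Finset.mul_sum, hsum, mul_zero]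
  · rintro ⟨x, δ⟩ ⟨y, ε⟩ hne
    simp only
    rw [key]
    have hR' : (n : ℤ) + 3 ≤ 2 * R := by exact_mod_cast hR
    push_cast
    by_cases hxy : x = y
    · subst hxy
      have hδ : δ ≠ ε := fun h => hne (by rw [h])
      rw [bs_of_ne hδ, coreVec_self h0 h1 (bs_or _)]
      rcases bs_or δ with hd | hd <;> rw [hd] <;> linarith
    · rw [coreVec_sum hs ho hxy]
      rcases bs_or δ with hd | hd <;> rcases bs_or ε with he | he <;>
        rcases h1 x y hxy with hS | hS <;> rw [hd, he, hS] <;> linarith
  · rintro ⟨x, δ⟩ ⟨y, ε⟩ hne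
    simp only
    rw [key]
    push_cast
    by_cases hxy : x = y
    · subst hxy
      have hδ : δ ≠ ε := fun h => hne (by rw [h])
      rw [bs_of_ne hδ, coreVec_self h0 h1 (bs_or _)]
      rcases bs_or δ with hd | hd <;> rw [hd] <;> linarith
    · rw [coreVec_sum hs ho hxy]
      have h2 : (2 : ℤ) ≤ n := by
        have h3 : 2 ≤ n := by
          by_contra hcon
          have : n = 1 := by omega
          subst this
          exact hxy (Subsingleton.elim _ _)
        exact_mod_cast h3
      rcases bs_or δ with hd | hd <;> rcases bs_or ε with he | he <;>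
        rcases h1 x y hxy with hS | hS <;> rw [hd, he, hS] <;> linarith

/-- The Paley conference matrix of a finite field with `q ≡ 1 (mod 4)` elements is symmetric. -/
theorem hasSymmetricConference_of_field (F : Type*) [Field F] [Fintype F] [DecidableEq F]
    (h : Fintype.card F % 4 = 1) : HasSymmetricConference (Fintype.card F + 1) := by
  have hF : ringChar F ≠ 2 := by
    intro h2
    have := FiniteField.even_card_iff_char_two.1 h2
    omega
  have hm1 : quadraticChar F (-1) = 1 := by
    rw [quadraticChar_one_iff_isSquare (neg_ne_zero.2 one_ne_zero),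
      FiniteField.isSquare_neg_one_iff]
    omega
  have ht := paley_transpose (F := F)
  rw [hm1, one_smul] at ht
  have hmul := paley_mul (F := F) hF
  have hc : Fintype.card (Option F) = Fintype.card F + 1 := Fintype.card_option
  let e : Option F ≃ Fin (Fintype.card F + 1) := Fintype.equivFinOfCardEq hc
  refine ⟨fun i j => paleyMatrix F (e.symm i) (e.symm j), ?_, ?_, ?_, ?_⟩
  · funext i j
    have := congrFun (congrFun ht (e.symm i)) (e.symm j)
    simpa using this
  · intro i
    exact paley_diag _
  · intro i j hij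
    exact paley_offdiag (fun hh => hij (e.symm.injective hh))
  · intro i j hij
    have h2 := congrFun (congrFun hmul (e.symm i)) (e.symm j)
    rw [Matrix.mul_apply, Matrix.smul_apply,
      Matrix.one_apply_ne (fun hh => hij (e.symm.injective hh)), smul_zero] at h2
    rw [← h2]
    exact Fintype.sum_equiv e.symm _ _ (fun x => rfl)

/-- Paley: a symmetric conference matrix of order `q + 1` for every prime power
`q ≡ 1 (mod 4)`. -/
theorem hasSymmetricConference_paley {q : ℕ} (hq : IsPrimePow q) (h : q % 4 = 1) :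
    HasSymmetricConference (q + 1) := by
  classical
  obtain ⟨p, k, hp, hk, rfl⟩ := (isPrimePow_nat_iff q).1 hq
  have : Fact p.Prime := ⟨hp⟩
  let _ : Fintype (GaloisField p k) := Fintype.ofFinite _
  have hcard : Fintype.card (GaloisField p k) = p ^ k := by
    rw [Fintype.card_eq_nat_card, GaloisField.card p k hk.ne']
  have := hasSymmetricConference_of_field (GaloisField p k) (by rw [hcard]; exact h)
  rwa [hcard] at this

end Pool.Agent.CubeBal
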