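import Pool.Agent.Lib.CubeBal.TwoPrimes

/-!
# Three primes congruent to `3` modulo `4`, and the exceptional set for two primes
-/

open Finset

namespace Pool.Agent.CubeBal

/-- `gold` with a natural exponent. -/
theorem gold_nat (A : ℕ) : ∃ n0 : ℕ, ∀ n : ℕ, n0 ≤ n →
    2 ≤ Real.log n ∧ ∃ B : Finset ℕ, (B.card : ℝ) * (Real.log n) ^ A ≤ n ∧
      ∀ x ∈ Icc 1 n, x ∉ B → n < 2 * x → x % 2 = 1 →
        (n : ℝ) ≤ gdeg n 4 x (ycl x) * (1024 * (Real.log n) ^ 2) := by
  obtain ⟨n0, h⟩ := gold A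
  refine ⟨n0, fun n hn => ?_⟩
  obtain ⟨h1, B, h2, h3⟩ := h n hn
  rw [Real.rpow_natCast] at h2
  exact ⟨h1, B, h2, h3⟩

/-- Many primes congruent to `3` modulo `4`. -/
theorem many_primes : ∃ n0 : ℕ, ∀ n : ℕ, n0 ≤ n → ∃ S : Finset ℕ,
    (∀ p ∈ S, p.Prime ∧ p % 4 = 3 ∧ p ≤ n) ∧ (n : ℝ) ≤ S.card * (3072 * (Real.log n) ^ 2) := by
  classical
  obtain ⟨n0, h⟩ := gold_nat 3
  refine ⟨2 * n0 + 100, fun n hn => ?_⟩
  set m := n / 2 with hm
  obtain ⟨h1, B, h2, h3⟩ := h m (by omega)
  have hm16 : 50 ≤ m := by omega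
  have hB : B.card < m / 4 - 1 := by
    have h4 : (8 : ℝ) ≤ (Real.log m) ^ 3 := by
      have := pow_le_pow_left₀ (by norm_num : (0 : ℝ) ≤ 2) h1 3
      linarith
    have h5 : (B.card : ℝ) * 8 ≤ m :=
      (mul_le_mul_of_nonneg_left h4 (Nat.cast_nonneg _)).trans h2
    have h6 : B.card * 8 ≤ m := by exact_mod_cast h5
    omega
  set O := (range (m / 4 - 1)).image (fun i => 2 * ((m / 2 + 1) / 2 + i) + 1) with hO
  have hOc : O.card = m / 4 - 1 := by
    have hinj : Function.Injective (fun i => 2 * ((m / 2 + 1) / 2 + i) + 1) := by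
      intro i j hij
      have hij' : 2 * ((m / 2 + 1) / 2 + i) + 1 = 2 * ((m / 2 + 1) / 2 + j) + 1 := hij
      omega
    rw [hO, card_image_of_injective _ hinj, card_range]
  obtain ⟨x, hxO, hxB⟩ := exists_mem_notMem_of_card_lt_card (hB.trans_eq hOc.symm)
  rw [hO, mem_image] at hxO
  obtain ⟨i, hi, hix⟩ := hxO
  rw [mem_range] at hi
  have hx2 : x % 2 = 1 := by omega
  have hg := h3 x (mem_Icc.2 ⟨by omega, by omega⟩) hxB (by omega) hx2
  set T := (Icc 1 m).filter (fun Y => gadj x Y ∧ Y % 4 = ycl x) with hT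
  have hTc : T.card = gdeg m 4 x (ycl x) := by
    rw [hT]
    unfold gdeg
    congr
  refine ⟨T.image (fun Y => x + Y), ?_, ?_⟩
  · intro p hp
    rw [mem_image] at hp
    obtain ⟨Y, hY, rfl⟩ := hp
    rw [hT, mem_filter, mem_Icc] at hY
    obtain ⟨a1, a2, a3, a4, a5⟩ := gadj_twoP hx2 hY.2.1 hY.2.2
    exact ⟨a1, a3, by omega⟩
  · rw [card_image_of_injective _ (add_right_injective x), hTc]
    have hlog : Real.log m ≤ Real.log n := by
      apply Real.log_le_log
      · have : 0 < m := by omega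
        exact_mod_cast this
      · have : m ≤ n := by omega
        exact_mod_cast this
    have hnm : (n : ℝ) ≤ 3 * m := by
      have : n ≤ 3 * m := by omega
      exact_mod_cast this
    have h4 : (gdeg m 4 x (ycl x) : ℝ) * (1024 * (Real.log m) ^ 2) ≤
        gdeg m 4 x (ycl x) * (1024 * (Real.log n) ^ 2) := by
      apply mul_le_mul_of_nonneg_left _ (Nat.cast_nonneg _)
      apply mul_le_mul_of_nonneg_left _ (by norm_num)
      exact pow_le_pow_left₀ (by linarith) hlog 2
    linarith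

/-- Every large `N ≡ 1 (mod 4)` is a sum of three primes congruent to `3` modulo `4`. -/
theorem three_primes : ∃ N0 : ℕ, ∀ N : ℕ, N0 ≤ N → N % 4 = 1 → ∃ p q l : ℕ,
    p.Prime ∧ q.Prime ∧ l.Prime ∧ p % 4 = 3 ∧ q % 4 = 3 ∧ l % 4 = 3 ∧ p + q + l = N := by
  classical
  obtain ⟨n0, h⟩ := gold_nat 3
  obtain ⟨n1, h'⟩ := many_primes
  obtain ⟨n2, hn2⟩ : ∃ n2 : ℕ, ∀ n : ℕ, n2 ≤ n → (3073 : ℝ) ≤ Real.log n := by
    have := (Real.tendsto_log_atTop.comp tendsto_natCast_atTop_atTop).eventually_ge_atTop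
      (3073 : ℝ)
    rw [Filter.eventually_atTop] at this
    exact this
  refine ⟨2 * (n0 + n1 + n2) + 100, fun N hN hN4 => ?_⟩
  set n := N / 2 with hn
  have hNn : N = 2 * n + 1 := by omega
  obtain ⟨h1, B, h2, h3⟩ := h n (by omega)
  obtain ⟨S, hS, hSc⟩ := h' n (by omega)
  have hL := hn2 n (by omega)
  have hn0 : (0 : ℝ) < n := by
    have : 0 < n := by omega
    exact_mod_cast this
  have hlt : B.card < (S.image (fun p => (N - p) / 2)).card := by
    rw [card_image_of_injOn]
    · by_contra hcon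
      have h4 : (S.card : ℝ) ≤ B.card := by exact_mod_cast not_lt.1 hcon
      have hL0 : 0 < Real.log n := by linarith
      have h5 : (n : ℝ) * Real.log n ≤ 3072 * n := by
        calc (n : ℝ) * Real.log n ≤ (S.card * (3072 * (Real.log n) ^ 2)) * Real.log n :=
              mul_le_mul_of_nonneg_right hSc hL0.le
          _ = 3072 * (S.card * (Real.log n) ^ 3) := by ring
          _ ≤ 3072 * (B.card * (Real.log n) ^ 3) := by
              apply mul_le_mul_of_nonneg_left _ (by norm_num)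
              exact mul_le_mul_of_nonneg_right h4 (by positivity)
          _ ≤ 3072 * n := mul_le_mul_of_nonneg_left h2 (by norm_num)
      have h6 : (n : ℝ) * 3073 ≤ n * Real.log n := mul_le_mul_of_nonneg_left hL hn0.le
      linarith
    · intro p hp q hq hpq
      have h4 := hS p hp
      have h5 := hS q hq
      simp only at hpq
      omega
  obtain ⟨x, hx, hxB⟩ := exists_mem_notMem_of_card_lt_card hlt
  rw [mem_image] at hx
  obtain ⟨l, hl, hlx⟩ := hx
  obtain ⟨l1, l2, l3⟩ := hS l hl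
  have hx2 : x % 2 = 1 := by omega
  have hg := h3 x (mem_Icc.2 ⟨by omega, by omega⟩) hxB (by omega) hx2
  have hpos : 0 < gdeg n 4 x (ycl x) := by
    by_contra hcon
    have h0 : gdeg n 4 x (ycl x) = 0 := by omega
    rw [h0] at hg
    norm_num at hg
    linarith
  obtain ⟨p, q, p1, q1, p3, q3, hpq⟩ := twoP_of_gdeg hx2 hpos
  exact ⟨p, q, l, p1, q1, l1, p3, q3, l2, by omega⟩

open Classical in
/-- The number of odd `x ≤ N` such that `2 x` is not a sum of two primes congruent to `3`
modulo `4`. -/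
noncomputable def exc (N : ℕ) : ℕ := ((Icc 1 N).filter (fun x => x % 2 = 1 ∧ ¬ TwoP x)).card

theorem exc_le (N : ℕ) : exc N ≤ N := by
  classical
  unfold exc
  refine (card_filter_le _ _).trans ?_
  simp

theorem exc_step {N : ℕ} (B : Finset ℕ)
    (h : ∀ x ∈ Icc 1 N, x ∉ B → N < 2 * x → x % 2 = 1 → TwoP x) :
    exc N ≤ B.card + exc (N / 2) := by
  classical
  unfold exc
  refine (card_le_card ?_).trans (card_union_le _ _)
  intro x hx
  rw [mem_filter, mem_Icc] at hx
  rw [mem_union, mem_filter, mem_Icc]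
  by_cases hxB : x ∈ B
  · exact Or.inl hxB
  · right
    refine ⟨⟨hx.1.1, ?_⟩, hx.2⟩
    by_contra hcon
    exact hx.2.2 (h x (mem_Icc.2 hx.1) hxB (by omega) hx.2.1)

/-- **The exceptional set.** For every `A` and all large `N`, at most `N / (log N)^A` odd `x ≤ N` are
such that `2 x` is not a sum of two primes congruent to `3` modulo `4`. -/
theorem exc_bound (A : ℕ) : ∃ N0 : ℕ, ∀ N : ℕ, N0 ≤ N → (exc N : ℝ) * (Real.log N) ^ A ≤ N := by
  classical
  obtain ⟨n0, h⟩ := gold_nat (A + 1)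
  have hev : ∀ᶠ y : ℝ in Filter.atTop, y ^ A * Real.sqrt (Real.exp y) ≤ Real.exp y / 2 ∧
      2 ^ (A + 3) ≤ y ∧ (n0 : ℝ) + 1 ≤ Real.sqrt (Real.exp y) := by
    have h1 : ∀ᶠ y : ℝ in Filter.atTop, y ^ A * Real.exp (-(1 / 2) * y) < 1 / 2 := by
      have := Real.tendsto_pow_mul_exp_neg_atTop_nhds_zero A
      have h2 := (tendsto_rpow_mul_exp_neg_mul_atTop_nhds_zero A (1 / 2) (by norm_num)).eventually
        (gt_mem_nhds (show (0 : ℝ) < 1 / 2 by norm_num))
      filter_upwards [h2] with y hy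
      rwa [Real.rpow_natCast] at hy
    have h3 : ∀ᶠ y : ℝ in Filter.atTop, (n0 : ℝ) + 1 ≤ Real.exp (y / 2) := by
      filter_upwards [Filter.eventually_ge_atTop (2 * ((n0 : ℝ) + 1))] with y hy
      linarith [Real.add_one_le_exp (y / 2)]
    filter_upwards [h1, Filter.eventually_ge_atTop (2 ^ (A + 3) : ℝ), h3] with y a1 a2 a3
    have hs : Real.sqrt (Real.exp y) = Real.exp (y / 2) := (Real.exp_half y).symm
    rw [hs]
    refine ⟨?_, a2, a3⟩
    have e1 : Real.exp (-(1 / 2) * y) * Real.exp y = Real.exp (y / 2) := by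
      rw [← Real.exp_add]
      congr 1
      ring
    have := mul_lt_mul_of_pos_right a1 (Real.exp_pos y)
    rw [mul_assoc, e1] at this
    linarith
  have hev2 := (Real.tendsto_log_atTop.comp tendsto_natCast_atTop_atTop).eventually hev
  rw [Filter.eventually_atTop] at hev2
  obtain ⟨N1, hN1⟩ := hev2
  refine ⟨max N1 1, fun N hN => ?_⟩
  obtain ⟨f1, f2, f3⟩ := hN1 N ((le_max_left _ _).trans hN)
  have hNpos : 1 ≤ N := (le_max_right _ _).trans hN
  have hN0 : (0 : ℝ) < N := by exact_mod_cast hNpos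
  simp only [Function.comp] at f1 f2 f3
  rw [Real.exp_log hN0] at f1 f3
  set L := Real.log N with hL
  have hL1 : 1 ≤ L := le_trans (one_le_pow₀ (by norm_num)) f2
  have hL0 : 0 < L := by linarith
  -- the dyadic induction
  have key : ∀ n : ℕ, n ≤ N → (exc n : ℝ) ≤ Real.sqrt N + 2 * n * 2 ^ (A + 1) / L ^ (A + 1) := by
    intro n
    induction n using Nat.strong_induction_on with
    | _ n ih =>
      intro hnN
      by_cases hs : (n : ℝ) ≤ Real.sqrt N
      · have h1 : (exc n : ℝ) ≤ n := by exact_mod_cast exc_le n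
        have h2 : 0 ≤ 2 * (n : ℝ) * 2 ^ (A + 1) / L ^ (A + 1) := by positivity
        linarith
      · push Not at hs
        have hn0 : n0 ≤ n := by
          have : (n0 : ℝ) ≤ n := by linarith
          exact_mod_cast this
        have hnpos : 1 ≤ n := by
          have : (0 : ℝ) < n := by linarith [Nat.cast_nonneg (α := ℝ) n0]
          exact_mod_cast this
        obtain ⟨g1, B, g2, g3⟩ := h n hn0
        have hstep := exc_step B (fun x hx hxB hx1 hx2 => by
          apply twoP_of_gdeg hx2 (n := n)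
          by_contra hcon
          have h0 : gdeg n 4 x (ycl x) = 0 := by omega
          have := g3 x hx hxB hx1 hx2
          rw [h0] at this
          norm_num at this
          have hn' : (1 : ℝ) ≤ n := by exact_mod_cast hnpos
          linarith)
        have h1 := ih (n / 2) (by omega) (by omega)
        have h2 : ((n / 2 : ℕ) : ℝ) ≤ (n : ℝ) / 2 := Nat.cast_div_le
        have hlogn : L / 2 ≤ Real.log n := by
          have h3 : Real.log (Real.sqrt N) ≤ Real.log n :=
            Real.log_le_log (Real.sqrt_pos.2 hN0) hs.le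
          rwa [Real.log_sqrt hN0.le] at h3
        have h4 : (L / 2) ^ (A + 1) ≤ (Real.log n) ^ (A + 1) :=
          pow_le_pow_left₀ (by positivity) hlogn _
        have h5 : (B.card : ℝ) ≤ n * 2 ^ (A + 1) / L ^ (A + 1) := by
          rw [le_div_iff₀ (by positivity)]
          have h6 : (B.card : ℝ) * (L / 2) ^ (A + 1) ≤ n :=
            (mul_le_mul_of_nonneg_left h4 (Nat.cast_nonneg _)).trans g2
          rw [div_pow] at h6
          have h7 : (0 : ℝ) < 2 ^ (A + 1) := by positivity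
          calc (B.card : ℝ) * L ^ (A + 1) = (B.card * (L ^ (A + 1) / 2 ^ (A + 1))) * 2 ^ (A + 1) := by
                field_simp
            _ ≤ n * 2 ^ (A + 1) := mul_le_mul_of_nonneg_right h6 h7.le
        have h6 : 2 * ((n / 2 : ℕ) : ℝ) * 2 ^ (A + 1) / L ^ (A + 1) ≤
            n * 2 ^ (A + 1) / L ^ (A + 1) := by
          apply div_le_div_of_nonneg_right _ (by positivity)
          apply mul_le_mul_of_nonneg_right _ (by positivity)
          linarith
        have h7 : (exc n : ℝ) ≤ B.card + exc (n / 2) := by exact_mod_cast hstep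
        have h8 : 2 * (n : ℝ) * 2 ^ (A + 1) / L ^ (A + 1) =
            n * 2 ^ (A + 1) / L ^ (A + 1) + n * 2 ^ (A + 1) / L ^ (A + 1) := by ring
        linarith
  have h1 := key N le_rfl
  have hLA : 0 < L ^ A := by positivity
  calc (exc N : ℝ) * L ^ A ≤ (Real.sqrt N + 2 * N * 2 ^ (A + 1) / L ^ (A + 1)) * L ^ A :=
        mul_le_mul_of_nonneg_right h1 hLA.le
    _ = L ^ A * Real.sqrt N + N * 2 ^ (A + 2) / L := by
        rw [pow_succ L A]
        field_simp
        ring
    _ ≤ N / 2 + N / 2 := by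
        apply add_le_add f1
        rw [div_le_iff₀ hL0]
        have h3 : (N : ℝ) * 2 ^ (A + 3) ≤ N * L := mul_le_mul_of_nonneg_left f2 hN0.le
        have h4 : (2 : ℝ) ^ (A + 3) = 2 * 2 ^ (A + 2) := by ring
        rw [h4] at h3
        linarith
    _ = N := by ring

end Pool.Agent.CubeBal
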