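import Pool.Agent.Lib.CubeBal.Main
import Pool.Agent.Lib.CubeBal.ThreePrimes

/-!
# Balanced vertex sets in the cube: large dimensions and almost all dimensions
-/

open Finset

namespace Pool.Agent.CubeBal

theorem good_of_twoP {k : ℕ} (hk : 1 ≤ k) (h : TwoP (2 * k - 1)) : Good k := by
  obtain ⟨p, q, hp, hq, hp3, hq3, hpq⟩ := h
  exact good_of_two_primes hp hq hp3 hq3 (by omega)

/-! ### Radii and their integral parts -/

theorem lt_of_floor_le {r : ℝ} {m : ℕ} (h : ⌊r⌋₊ ≤ m) : r < (m : ℝ) + 1 := by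
  have h1 := Nat.lt_floor_add_one r
  have h2 : ((⌊r⌋₊ : ℕ) : ℝ) ≤ m := by exact_mod_cast h
  linarith

theorem le_of_le_floor {r : ℝ} {m : ℕ} (hm : 0 < m) (h : m ≤ ⌊r⌋₊) : (m : ℝ) ≤ r :=
  (Nat.le_floor_iff' hm.ne').1 h

/-- The question for small radii. -/
theorem q1_small {n : ℕ} (hn : 1 ≤ n) {r : ℝ} (h : 2 * ⌊r⌋₊ ≤ n + 1) : Q1 n r := by
  rcases Nat.even_or_odd n with he | ho
  · obtain ⟨m, hm⟩ := he
    refine q1_small_even hn ⟨m, hm⟩ ?_
    have h1 : r < (m : ℝ) + 1 := lt_of_floor_le (by omega)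
    have h2 : (n : ℝ) = m + m := by exact_mod_cast hm
    linarith
  · obtain ⟨m, hm⟩ := ho
    refine q1_small_odd ⟨m, hm⟩ ?_
    have h1 : r < ((m + 1 : ℕ) : ℝ) + 1 := lt_of_floor_le (by omega)
    have h2 : (n : ℝ) = 2 * m + 1 := by exact_mod_cast hm
    push_cast at h1
    linarith

theorem q1_of_bal_floor {n R : ℕ} (hR : 0 < R) (h : Bal n R) {r : ℝ} (hr : R ≤ ⌊r⌋₊) : Q1 n r :=
  q1_of_bal h (le_of_le_floor hR hr)

/-- All large dimensions: all radii with at most two exceptional integral parts; no exception if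
`n ≡ 1 (mod 4)`. -/
theorem large_dimensions : ∃ n₀ : ℕ, ∀ n : ℕ, n₀ ≤ n → ∀ r : ℝ,
    (n % 4 = 1 ∨ (n % 4 = 2 ∧ ⌊r⌋₊ ≠ n / 2 + 1) ∨ (n % 4 = 3 ∧ ⌊r⌋₊ ≠ (n + 3) / 2) ∨
      (n % 4 = 0 ∧ ⌊r⌋₊ ≠ n / 2 + 1 ∧ ⌊r⌋₊ ≠ n / 2 + 2)) → Q1 n r := by
  obtain ⟨N0, h⟩ := three_primes
  have hbal : ∀ n : ℕ, N0 ≤ n → n % 4 = 1 → Bal n ((n + 3) / 2) := by
    intro n hn h4
    obtain ⟨p, q, l, hp, hq, hl, hp3, hq3, hl3, hsum⟩ := h n hn h4
    have := bal_three_primes hp hq hl hp3 hq3 hl3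
    rwa [hsum] at this
  refine ⟨N0 + 4, fun n hn r hr => ?_⟩
  by_cases hs : 2 * ⌊r⌋₊ ≤ n + 1
  · exact q1_small (by omega) hs
  rcases hr with h4 | ⟨h4, h5⟩ | ⟨h4, h5⟩ | ⟨h4, h5, h6⟩
  · exact q1_odd (Nat.odd_iff.2 (by omega)) (hbal n (by omega) h4) (by omega) r
  · have h1 := (hbal (n - 1) (by omega) (by omega)).succ
    rw [show n - 1 + 1 = n by omega] at h1
    exact q1_of_bal_floor (by omega) h1 (by omega)
  · have h1 := (hbal (n - 2) (by omega) (by omega)).succ.succ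
    rw [show n - 2 + 1 + 1 = n by omega] at h1
    exact q1_of_bal_floor (by omega) h1 (by omega)
  · have h1 := (hbal (n - 3) (by omega) (by omega)).succ.succ.succ
    rw [show n - 3 + 1 + 1 + 1 = n by omega] at h1
    exact q1_of_bal_floor (by omega) h1 (by omega)

theorem q1_four_floor {k : ℕ} (hk : 1 ≤ k) (h : Good k) {r : ℝ}
    (hr : HasHadamard (4 * k) ∨ ⌊r⌋₊ ≠ 2 * k + 1) : Q1 (4 * k) r := by
  rcases hr with h1 | h1
  · exact q1_four hk h (Or.inl h1)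
  · by_cases hs : 2 * ⌊r⌋₊ ≤ 4 * k + 1
    · exact q1_small (by omega) hs
    · have h2 := (h.bal hk).1.succ.succ
      rw [show 4 * k - 2 + 1 + 1 = 4 * k by omega] at h2
      exact q1_of_bal_floor (by omega) h2 (by omega)

/-- The dimensions in which the question is not settled by the two primes theorem. -/
theorem bad_imp {n : ℕ} (hn : 1 ≤ n) (h : ∃ r : ℝ, ¬ Q1 n r ∧
    (4 ∣ n → ⌊r⌋₊ ≠ n / 2 + 1)) : ¬ TwoP (2 * ((n + 3) / 4) - 1) := by
  intro hT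
  obtain ⟨r, hr, h4⟩ := h
  have hg := good_of_twoP (k := (n + 3) / 4) (by omega) hT
  apply hr
  by_cases h0 : n % 4 = 0
  · have hn4 : n = 4 * ((n + 3) / 4) := by omega
    have h5 := h4 (Nat.dvd_of_mod_eq_zero h0)
    rw [hn4]
    exact q1_four_floor (by omega) hg (Or.inr (by omega))
  · exact q1_good hg rfl hn h0 r

open Classical in
/-- **Almost all dimensions.** -/
theorem almost_all (A : ℕ) : ∃ N₀ : ℕ, ∀ N : ℕ, N₀ ≤ N →
    (((Icc 1 N).filter (fun n : ℕ => ∃ r : ℝ, ¬ Q1 n r ∧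
      (4 ∣ n → ⌊r⌋₊ ≠ n / 2 + 1))).card : ℝ) * (Real.log N) ^ A ≤ N := by
  obtain ⟨N0, h⟩ := exc_bound (A + 1)
  obtain ⟨n2, hn2⟩ : ∃ n2 : ℕ, ∀ n : ℕ, n2 ≤ n → (4 : ℝ) ≤ Real.log n := by
    have := (Real.tendsto_log_atTop.comp tendsto_natCast_atTop_atTop).eventually_ge_atTop (4 : ℝ)
    rw [Filter.eventually_atTop] at this
    exact this
  refine ⟨N0 + n2, fun N hN => ?_⟩
  have h1 := h N (by omega)
  have h2 := hn2 N (by omega)
  set S := (Icc 1 N).filter (fun n : ℕ => ∃ r : ℝ, ¬ Q1 n r ∧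
      (4 ∣ n → ⌊r⌋₊ ≠ n / 2 + 1)) with hS
  have hcard : S.card ≤ 4 * exc N := by
    unfold exc
    refine card_le_mul_card_image_of_maps_to (f := fun n => 2 * ((n + 3) / 4) - 1) ?_ 4 ?_
    · intro n hn
      rw [hS, mem_filter, mem_Icc] at hn
      rw [mem_filter, mem_Icc]
      exact ⟨by omega, by omega, bad_imp hn.1.1 hn.2⟩
    · intro x _
      have hsub : S.filter (fun n => 2 * ((n + 3) / 4) - 1 = x) ⊆ Icc (2 * x - 1) (2 * x + 2) := by
        intro n hn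
        rw [mem_filter, hS, mem_filter, mem_Icc] at hn
        rw [mem_Icc]
        omega
      refine (card_le_card hsub).trans ?_
      rw [Nat.card_Icc]
      omega
  have hcard' : (S.card : ℝ) ≤ 4 * exc N := by exact_mod_cast hcard
  have hL0 : 0 < Real.log N := by linarith
  have hA : 0 < (Real.log N) ^ A := by positivity
  have he : (0 : ℝ) ≤ exc N := Nat.cast_nonneg _
  calc (S.card : ℝ) * (Real.log N) ^ A ≤ (4 * exc N) * (Real.log N) ^ A :=
        mul_le_mul_of_nonneg_right hcard' hA.le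
    _ = (exc N * (Real.log N) ^ A) * 4 := by ring
    _ ≤ (exc N * (Real.log N) ^ A) * Real.log N :=
        mul_le_mul_of_nonneg_left h2 (by positivity)
    _ = exc N * (Real.log N) ^ (A + 1) := by ring
    _ ≤ N := h1

end Pool.Agent.CubeBal
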