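import Mathlib

/-!
# Balanced vertex sets of small diameter in the cube: definitions and lemmas

Used by the hand-in SmallestRadius. The former hand-in HadamardDimensions, from which this file is
taken, is now contained in AlmostAllDimensions.

Let `c` be the centre of the cube `[0,1]^n`. We prove that, whenever there is a Hadamard matrix of
order `4 * ⌈n / 4⌉`, the following holds for every `r`: if `c` is a convex combination of the
points of some set of vertices of diameter at most `r`, then `c` is also the unweighted average of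
some set of vertices of diameter at most `r`. We also prove that the orders obtained from the
constructions of Sylvester and Paley (over arbitrary finite fields) are orders of Hadamard
matrices.
-/

open Finset Matrix

namespace Pool.Agent.Results.MP_039f5e_co.HadamardDimensions

/-- The vertex `a` of the cube, as a point of `[0,1]^n ⊆ ℝ^n`. -/
def pt {n : ℕ} (a : Fin n → Bool) : Fin n → ℝ := fun i => if a i then 1 else 0

/-- The centre `c = (1/2, ..., 1/2)` of the cube. -/
noncomputable def center (n : ℕ) : Fin n → ℝ := fun _ => 1 / 2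

/-- The diameter of the set `σ` of vertices, in the Hamming metric, is at most `r`. -/
def DiamLE {n : ℕ} (σ : Finset (Fin n → Bool)) (r : ℝ) : Prop :=
  ∀ a ∈ σ, ∀ b ∈ σ, (hammingDist a b : ℝ) ≤ r

/-- The centre `c` lies in the image of `f_n : VR(Q_n; r) → [0,1]^n`, i.e. `c` belongs to the
convex hull of some nonempty set of vertices of diameter at most `r`. -/
def CenterInImage (n : ℕ) (r : ℝ) : Prop :=
  ∃ σ : Finset (Fin n → Bool), σ.Nonempty ∧ DiamLE σ r ∧
    center n ∈ convexHull ℝ (pt '' (σ : Set (Fin n → Bool)))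

/-- The set `B` of vertices is balanced: it is nonempty and the unweighted average of its points
is the centre `c`. -/
def IsBalanced {n : ℕ} (B : Finset (Fin n → Bool)) : Prop :=
  B.Nonempty ∧ (B.card : ℝ)⁻¹ • ∑ b ∈ B, pt b = center n

/-- There is a Hadamard matrix of order `N`, i.e. an `N × N` matrix with entries `±1` and
pairwise orthogonal rows. -/
def HasHadamard (N : ℕ) : Prop := ∃ H : Matrix (Fin N) (Fin N) ℤ, H.IsHadamard

/-- The orders generated, under multiplication, by `2` (Sylvester), by `q + 1` for prime powers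
`q ≡ 3 (mod 4)`, and by `2 (q + 1)` for prime powers `q ≡ 1 (mod 4)` (Paley). -/
inductive PaleySylvester : ℕ → Prop
  | two : PaleySylvester 2
  | paleyI (q : ℕ) (hq : IsPrimePow q) (h : q % 4 = 3) : PaleySylvester (q + 1)
  | paleyII (q : ℕ) (hq : IsPrimePow q) (h : q % 4 = 1) : PaleySylvester (2 * (q + 1))
  | mul (a b : ℕ) (ha : PaleySylvester a) (hb : PaleySylvester b) : PaleySylvester (a * b)

/-- Signs attached to a vertex, as integers. -/
def sg {n : ℕ} (a : Fin n → Bool) (i : Fin n) : ℤ := if a i then -1 else 1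

/-- Inner product of the sign vectors of two vertices. -/
def ip {n : ℕ} (a b : Fin n → Bool) : ℤ := ∑ i, sg a i * sg b i

theorem sg_or {n : ℕ} (a : Fin n → Bool) (i : Fin n) : sg a i = 1 ∨ sg a i = -1 := by
  unfold sg; split_ifs <;> simp

theorem sg_mul_self {n : ℕ} (a : Fin n → Bool) (i : Fin n) : sg a i * sg a i = 1 := by
  unfold sg; split_ifs <;> simp

theorem pt_eq {n : ℕ} (a : Fin n → Bool) (i : Fin n) : pt a i = (1 - (sg a i : ℝ)) / 2 := by
  unfold sg pt; split_ifs <;> norm_num

theorem ip_eq {n : ℕ} (a b : Fin n → Bool) : ip a b = (n : ℤ) - 2 * (hammingDist a b : ℤ) := by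
  have h : ∀ i, sg a i * sg b i = 1 - 2 * (if a i ≠ b i then 1 else 0) := by
    intro i
    unfold sg
    cases a i <;> cases b i <;> simp
  unfold ip hammingDist
  rw [Finset.sum_congr rfl (fun i _ => h i), Finset.sum_sub_distrib, ← Finset.mul_sum,
    Finset.sum_boole]
  simp

theorem ip_comm {n : ℕ} (a b : Fin n → Bool) : ip a b = ip b a := by
  unfold ip
  exact Finset.sum_congr rfl (fun i _ => mul_comm _ _)

theorem ip_self {n : ℕ} (a : Fin n → Bool) : ip a a = n := by
  rw [ip_eq, hammingDist_self]; simp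

theorem pt_injective (n : ℕ) : Function.Injective (pt : (Fin n → Bool) → (Fin n → ℝ)) := by
  intro a b h
  funext i
  have := congrFun h i
  unfold pt at this
  cases ha : a i <;> cases hb : b i <;> simp_all

/-! ### Weighted solutions -/

/-- A weighted solution: nonnegative weights on `σ`, of total weight `1`, with weighted sum of the
sign vectors equal to `0`. -/
structure Sol {n : ℕ} (σ : Finset (Fin n → Bool)) (w : (Fin n → Bool) → ℝ) : Prop where
  nonneg : ∀ a ∈ σ, 0 ≤ w a
  total : ∑ a ∈ σ, w a = 1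
  zero : ∀ i, ∑ a ∈ σ, w a * (sg a i : ℝ) = 0

theorem exists_sol {n : ℕ} {σ : Finset (Fin n → Bool)}
    (h : center n ∈ convexHull ℝ (pt '' (σ : Set (Fin n → Bool)))) : ∃ w, Sol σ w := by
  classical
  rw [← Finset.coe_image, Finset.convexHull_eq] at h
  obtain ⟨w, hw, hsum, hc⟩ := h
  rw [Finset.sum_image (fun a _ b _ hab => pt_injective n hab)] at hsum
  refine ⟨fun a => w (pt a), ⟨fun a ha => hw _ (Finset.mem_image_of_mem _ ha), hsum, ?_⟩⟩
  intro i
  have hc' : ∑ a ∈ σ, w (pt a) * pt a i = 1 / 2 := by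
    have := congrFun hc i
    rw [Finset.centerMass_eq_of_sum_1 _ _ (by
      rw [Finset.sum_image (fun a _ b _ hab => pt_injective n hab)]; exact hsum),
      Finset.sum_image (fun a _ b _ hab => pt_injective n hab)] at this
    simpa [center] using this
  have h2 : ∑ a ∈ σ, w (pt a) * (sg a i : ℝ) = ∑ a ∈ σ, (w (pt a) - 2 * (w (pt a) * pt a i)) := by
    apply Finset.sum_congr rfl
    intro a _
    rw [pt_eq]; ring
  rw [h2, Finset.sum_sub_distrib, ← Finset.mul_sum, hc', hsum]
  norm_num

theorem Sol.first_moment {n : ℕ} {σ : Finset (Fin n → Bool)} {w : (Fin n → Bool) → ℝ}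
    (h : Sol σ w) : ∑ a ∈ σ, ∑ b ∈ σ, w a * w b * (ip a b : ℝ) = 0 := by
  have h1 : ∀ a b, w a * w b * (ip a b : ℝ) =
      ∑ i, (w a * (sg a i : ℝ)) * (w b * (sg b i : ℝ)) := by
    intro a b
    unfold ip
    push_cast
    rw [Finset.mul_sum]
    exact Finset.sum_congr rfl (fun i _ => by ring)
  calc ∑ a ∈ σ, ∑ b ∈ σ, w a * w b * (ip a b : ℝ)
      = ∑ a ∈ σ, ∑ b ∈ σ, ∑ i, (w a * (sg a i : ℝ)) * (w b * (sg b i : ℝ)) := by simp_rw [h1]
    _ = ∑ a ∈ σ, ∑ i, ∑ b ∈ σ, (w a * (sg a i : ℝ)) * (w b * (sg b i : ℝ)) :=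
        Finset.sum_congr rfl (fun a _ => Finset.sum_comm)
    _ = ∑ a ∈ σ, ∑ i, (w a * (sg a i : ℝ)) * ∑ b ∈ σ, (w b * (sg b i : ℝ)) := by
        simp_rw [Finset.mul_sum]
    _ = 0 := by simp [h.zero]

theorem Sol.second_moment {n : ℕ} {σ : Finset (Fin n → Bool)} {w : (Fin n → Bool) → ℝ}
    (h : Sol σ w) : (n : ℝ) ≤ ∑ a ∈ σ, ∑ b ∈ σ, w a * w b * (ip a b : ℝ) ^ 2 := by
  have h1 : ∀ a b, w a * w b * (ip a b : ℝ) ^ 2 =
      ∑ i, ∑ j, (w a * (sg a i : ℝ) * (sg a j : ℝ)) * (w b * (sg b i : ℝ) * (sg b j : ℝ)) := by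
    intro a b
    unfold ip
    push_cast
    rw [pow_two, Finset.sum_mul_sum, Finset.mul_sum]
    apply Finset.sum_congr rfl
    intro i _
    rw [Finset.mul_sum]
    exact Finset.sum_congr rfl (fun j _ => by ring)
  have h2 : ∑ a ∈ σ, ∑ b ∈ σ, w a * w b * (ip a b : ℝ) ^ 2 =
      ∑ i, ∑ j, (∑ a ∈ σ, w a * (sg a i : ℝ) * (sg a j : ℝ)) ^ 2 := by
    calc ∑ a ∈ σ, ∑ b ∈ σ, w a * w b * (ip a b : ℝ) ^ 2
        = ∑ a ∈ σ, ∑ b ∈ σ, ∑ i, ∑ j,
          (w a * (sg a i : ℝ) * (sg a j : ℝ)) * (w b * (sg b i : ℝ) * (sg b j : ℝ)) := by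
          simp_rw [h1]
      _ = ∑ a ∈ σ, ∑ i, ∑ j, ∑ b ∈ σ,
          (w a * (sg a i : ℝ) * (sg a j : ℝ)) * (w b * (sg b i : ℝ) * (sg b j : ℝ)) := by
          apply Finset.sum_congr rfl
          intro a _
          rw [Finset.sum_comm]
          apply Finset.sum_congr rfl
          intro i _
          rw [Finset.sum_comm]
      _ = ∑ i, ∑ j, ∑ a ∈ σ, ∑ b ∈ σ,
          (w a * (sg a i : ℝ) * (sg a j : ℝ)) * (w b * (sg b i : ℝ) * (sg b j : ℝ)) := by
          rw [Finset.sum_comm]
          apply Finset.sum_congr rfl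
          intro i _
          rw [Finset.sum_comm]
      _ = _ := by
          apply Finset.sum_congr rfl
          intro i _
          apply Finset.sum_congr rfl
          intro j _
          rw [pow_two, Finset.sum_mul_sum]
  rw [h2]
  calc (n : ℝ) = ∑ i : Fin n, (1 : ℝ) := by simp
    _ = ∑ i : Fin n, (∑ a ∈ σ, w a * (sg a i : ℝ) * (sg a i : ℝ)) ^ 2 := by
        apply Finset.sum_congr rfl
        intro i _
        have : ∑ a ∈ σ, w a * (sg a i : ℝ) * (sg a i : ℝ) = 1 := by
          rw [← h.total]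
          apply Finset.sum_congr rfl
          intro a _
          have := sg_mul_self a i
          have h3 : (sg a i : ℝ) * (sg a i : ℝ) = 1 := by exact_mod_cast this
          rw [mul_assoc, h3, mul_one]
        rw [this]; norm_num
    _ ≤ _ := by
        apply Finset.sum_le_sum
        intro i _
        exact Finset.single_le_sum
          (f := fun j => (∑ a ∈ σ, w a * (sg a i : ℝ) * (sg a j : ℝ)) ^ 2)
          (fun j _ => sq_nonneg _) (Finset.mem_univ i)

theorem Sol.exists_pos {n : ℕ} {σ : Finset (Fin n → Bool)} {w : (Fin n → Bool) → ℝ}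
    (h : Sol σ w) : ∃ a ∈ σ, 0 < w a := by
  by_contra hcon
  push Not at hcon
  have : ∑ a ∈ σ, w a ≤ 0 := Finset.sum_nonpos hcon
  rw [h.total] at this
  norm_num at this

/-- The elementary lower bound `r > n / 2`. -/
theorem Sol.lower {n : ℕ} {σ : Finset (Fin n → Bool)} {w : (Fin n → Bool) → ℝ}
    (h : Sol σ w) (hn : 1 ≤ n) {R : ℕ} (hR : ∀ a ∈ σ, ∀ b ∈ σ, hammingDist a b ≤ R) :
    n + 1 ≤ 2 * R := by
  by_contra hcon
  obtain ⟨a, ha, hwa⟩ := h.exists_pos
  have h0 := h.first_moment
  have hnn : ∀ x ∈ σ, ∀ y ∈ σ, 0 ≤ w x * w y * (ip x y : ℝ) := by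
    intro x hx y hy
    have h1 : (0 : ℤ) ≤ ip x y := by
      rw [ip_eq]
      have := hR x hx y hy
      omega
    have h2 : (0 : ℝ) ≤ (ip x y : ℝ) := by exact_mod_cast h1
    exact mul_nonneg (mul_nonneg (h.nonneg x hx) (h.nonneg y hy)) h2
  have h1 : w a * w a * (ip a a : ℝ) ≤ ∑ x ∈ σ, ∑ y ∈ σ, w x * w y * (ip x y : ℝ) := by
    calc w a * w a * (ip a a : ℝ) ≤ ∑ y ∈ σ, w a * w y * (ip a y : ℝ) :=
          Finset.single_le_sum (f := fun y => w a * w y * (ip a y : ℝ))
            (fun y hy => hnn a ha y hy) ha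
      _ ≤ _ := Finset.single_le_sum (f := fun x => ∑ y ∈ σ, w x * w y * (ip x y : ℝ))
            (fun x hx => Finset.sum_nonneg (fun y hy => hnn x hx y hy)) ha
  rw [h0, ip_self] at h1
  have h2 : (0 : ℝ) < (n : ℝ) := by exact_mod_cast hn
  have h3 : 0 < w a * w a * ((n : ℤ) : ℝ) := by
    push_cast
    positivity
  linarith

/-- Rigidity: if all distances are at most `(n + 1) / 2`, then any two distinct points of positive
weight are at distance exactly `(n + 1) / 2`. -/
theorem Sol.rigid {n : ℕ} {σ : Finset (Fin n → Bool)} {w : (Fin n → Bool) → ℝ}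
    (h : Sol σ w) (hR : ∀ a ∈ σ, ∀ b ∈ σ, 2 * hammingDist a b ≤ n + 1)
    {a b : Fin n → Bool} (ha : a ∈ σ) (hb : b ∈ σ) (hwa : 0 < w a) (hwb : 0 < w b) (hab : a ≠ b) :
    ip a b = -1 := by
  classical
  set A : ℝ := ∑ x ∈ σ, w x * w x with hA
  have hge : ∀ x ∈ σ, ∀ y ∈ σ, (-1 : ℝ) ≤ (ip x y : ℝ) := by
    intro x hx y hy
    have h1 : (-1 : ℤ) ≤ ip x y := by
      rw [ip_eq]
      have := hR x hx y hy
      omega
    exact_mod_cast h1
  have hle : ∀ x y : Fin n → Bool, x ≠ y → (ip x y : ℝ) ≤ (n : ℝ) - 2 := by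
    intro x y hxy
    have h1 : ip x y ≤ (n : ℤ) - 2 := by
      rw [ip_eq]
      have := hammingDist_pos.2 hxy
      omega
    exact_mod_cast h1
  have hone : ∑ x ∈ σ, ∑ y ∈ σ, w x * w y = 1 := by
    rw [← Finset.sum_mul_sum, h.total]; norm_num
  have hdiag : ∀ c : ℝ, ∑ x ∈ σ, ∑ y ∈ σ, (if x = y then c * (w x * w x) else 0) = c * A := by
    intro c
    rw [hA, Finset.mul_sum]
    apply Finset.sum_congr rfl
    intro x hx
    rw [Finset.sum_ite_eq]
    simp [hx]
  -- the quadratic inequality
  have hF : (-2 * ((n : ℝ) + 1)) * A ≤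
      ∑ x ∈ σ, ∑ y ∈ σ, w x * w y * (((ip x y : ℝ) + 1) * ((n : ℝ) - 2 - (ip x y : ℝ))) := by
    rw [← hdiag]
    apply Finset.sum_le_sum
    intro x hx
    apply Finset.sum_le_sum
    intro y hy
    split_ifs with hxy
    · subst hxy
      rw [ip_self]
      push_cast
      apply le_of_eq
      ring
    · have h1 := hge x hx y hy
      have h2 := hle x y hxy
      have h3 := h.nonneg x hx
      have h4 := h.nonneg y hy
      apply mul_nonneg (mul_nonneg h3 h4)
      apply mul_nonneg <;> linarith
  have hF2 : ∑ x ∈ σ, ∑ y ∈ σ, w x * w y * (((ip x y : ℝ) + 1) * ((n : ℝ) - 2 - (ip x y : ℝ))) =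
      - (∑ x ∈ σ, ∑ y ∈ σ, w x * w y * (ip x y : ℝ) ^ 2)
      + ((n : ℝ) - 3) * (∑ x ∈ σ, ∑ y ∈ σ, w x * w y * (ip x y : ℝ))
      + ((n : ℝ) - 2) * (∑ x ∈ σ, ∑ y ∈ σ, w x * w y) := by
    rw [← Finset.sum_neg_distrib, Finset.mul_sum, Finset.mul_sum, ← Finset.sum_add_distrib,
      ← Finset.sum_add_distrib]
    apply Finset.sum_congr rfl
    intro x _
    rw [← Finset.sum_neg_distrib, Finset.mul_sum, Finset.mul_sum, ← Finset.sum_add_distrib,
      ← Finset.sum_add_distrib]
    apply Finset.sum_congr rfl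
    intro y _
    ring
  rw [hF2, h.first_moment, hone] at hF
  have h2m := h.second_moment
  have hA1 : 1 ≤ ((n : ℝ) + 1) * A := by linarith
  -- the linear inequality
  have hG : ((n : ℝ) + 1) * A + w a * w b * ((ip a b : ℝ) + 1) ≤
      ∑ x ∈ σ, ∑ y ∈ σ, w x * w y * ((ip x y : ℝ) + 1) := by
    have hs : ∑ x ∈ σ, ∑ y ∈ σ, (if x = a ∧ y = b then w a * w b * ((ip a b : ℝ) + 1) else 0) =
        w a * w b * ((ip a b : ℝ) + 1) := by
      rw [Finset.sum_eq_single a]
      · rw [Finset.sum_eq_single b]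
        · simp
        · intro y _ hy
          simp [hy]
        · intro hb'
          exact absurd hb hb'
      · intro x _ hx
        apply Finset.sum_eq_zero
        intro y _
        simp [hx]
      · intro ha'
        exact absurd ha ha'
    rw [← hdiag, ← hs, ← Finset.sum_add_distrib]
    apply Finset.sum_le_sum
    intro x hx
    rw [← Finset.sum_add_distrib]
    apply Finset.sum_le_sum
    intro y hy
    have h1 := hge x hx y hy
    have h3 := h.nonneg x hx
    have h4 := h.nonneg y hy
    have h5 : 0 ≤ w x * w y * ((ip x y : ℝ) + 1) :=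
      mul_nonneg (mul_nonneg h3 h4) (by linarith)
    by_cases hxy : x = y
    · subst hxy
      have : ¬ (x = a ∧ x = b) := fun hh => hab (hh.1.symm.trans hh.2)
      rw [if_pos rfl, if_neg this, ip_self]
      push_cast
      apply le_of_eq
      ring
    · rw [if_neg hxy]
      split_ifs with hh
      · rw [hh.1, hh.2]; linarith
      · linarith
  have hG2 : ∑ x ∈ σ, ∑ y ∈ σ, w x * w y * ((ip x y : ℝ) + 1) = 1 := by
    have : ∀ x y, w x * w y * ((ip x y : ℝ) + 1) = w x * w y * (ip x y : ℝ) + w x * w y := by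
      intro x y; ring
    simp_rw [this, Finset.sum_add_distrib]
    rw [h.first_moment, hone]; norm_num
  rw [hG2] at hG
  have h6 : w a * w b * ((ip a b : ℝ) + 1) ≤ 0 := by linarith
  have h7 : 0 < w a * w b := mul_pos hwa hwb
  have h8 : (ip a b : ℝ) + 1 ≤ 0 := by
    by_contra hcon
    push Not at hcon
    have := mul_pos h7 hcon
    linarith
  have h9 := hge a ha b hb
  have h10 : (ip a b : ℝ) = -1 := by linarith
  exact_mod_cast h10

/-- If `a` has positive weight, then for each coordinate some point of positive weight differs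
from `a` there. -/
theorem Sol.exists_opposite {n : ℕ} {σ : Finset (Fin n → Bool)} {w : (Fin n → Bool) → ℝ}
    (h : Sol σ w) (a : Fin n → Bool) (i : Fin n) :
    ∃ b ∈ σ, 0 < w b ∧ sg b i = - sg a i := by
  by_contra hcon
  push Not at hcon
  have h1 : ∀ b ∈ σ, w b * (sg b i : ℝ) * (sg a i : ℝ) = w b := by
    intro b hb
    rcases (h.nonneg b hb).eq_or_lt with h0 | h0
    · rw [← h0]; simp
    · have h2 := hcon b hb h0
      have h3 : sg b i = sg a i := by
        rcases sg_or b i with hb' | hb' <;> rcases sg_or a i with ha' | ha' <;> simp_all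
      rw [h3]
      have h4 : (sg a i : ℝ) * (sg a i : ℝ) = 1 := by exact_mod_cast sg_mul_self a i
      rw [mul_assoc, h4, mul_one]
  have h2 : ∑ b ∈ σ, w b * (sg b i : ℝ) * (sg a i : ℝ) = 1 := by
    rw [Finset.sum_congr rfl h1, h.total]
  rw [← Finset.sum_mul, h.zero i, zero_mul] at h2
  norm_num at h2

/-- If `n ≡ 1 (mod 4)` and `n ≥ 5`, the centre is not a convex combination of the points of a set
of diameter at most `(n + 1) / 2`. -/
theorem Sol.lower_one {n : ℕ} {σ : Finset (Fin n → Bool)} {w : (Fin n → Bool) → ℝ}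
    (h : Sol σ w) (hn : 5 ≤ n) (hn1 : n % 4 = 1) {R : ℕ}
    (hR : ∀ a ∈ σ, ∀ b ∈ σ, hammingDist a b ≤ R) : n + 3 ≤ 2 * R := by
  by_contra hcon
  have hR' : ∀ a ∈ σ, ∀ b ∈ σ, 2 * hammingDist a b ≤ n + 1 := by
    intro a ha b hb
    have := hR a ha b hb
    omega
  obtain ⟨a, ha, hwa⟩ := h.exists_pos
  obtain ⟨b, hb, hwb, hab⟩ := h.exists_opposite a ⟨0, by omega⟩
  have hne : a ≠ b := by
    rintro rfl
    rcases sg_or a ⟨0, by omega⟩ with h1 | h1 <;> rw [h1] at hab <;> norm_num at hab
  have hip := h.rigid hR' ha hb hwa hwb hne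
  -- a coordinate where `a` and `b` agree
  obtain ⟨i, hi⟩ : ∃ i, sg b i = sg a i := by
    by_contra hno
    push Not at hno
    have h1 : ∀ i, sg a i * sg b i = -1 := by
      intro i
      have := hno i
      rcases sg_or b i with hb' | hb' <;> rcases sg_or a i with ha' | ha' <;> simp_all
    have h2 : ip a b = -(n : ℤ) := by
      unfold ip
      rw [Finset.sum_congr rfl (fun i _ => h1 i)]
      simp
    rw [hip] at h2
    omega
  obtain ⟨c, hc, hwc, hac⟩ := h.exists_opposite a i
  have hca : a ≠ c := by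
    rintro rfl
    rcases sg_or a i with h1 | h1 <;> rw [h1] at hac <;> norm_num at hac
  have hcb : b ≠ c := by
    rintro rfl
    rw [hi] at hac
    rcases sg_or a i with h1 | h1 <;> rw [h1] at hac <;> norm_num at hac
  have hip2 := h.rigid hR' ha hc hwa hwc hca
  have hip3 := h.rigid hR' hb hc hwb hwc hcb
  have key : ∑ j, (sg a j + sg b j) * (sg a j + sg c j) = (n : ℤ) - 3 := by
    have : ∀ j, (sg a j + sg b j) * (sg a j + sg c j) =
        sg a j * sg a j + sg a j * sg c j + sg a j * sg b j + sg b j * sg c j := by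
      intro j; ring
    simp_rw [this, Finset.sum_add_distrib]
    have e1 : ∑ j, sg a j * sg a j = ip a a := rfl
    have e2 : ∑ j, sg a j * sg c j = ip a c := rfl
    have e3 : ∑ j, sg a j * sg b j = ip a b := rfl
    have e4 : ∑ j, sg b j * sg c j = ip b c := rfl
    rw [e1, e2, e3, e4, hip, hip2, hip3, ip_self]
    ring
  have hdvd : (4 : ℤ) ∣ (n : ℤ) - 3 := by
    rw [← key]
    apply Finset.dvd_sum
    intro j _
    rcases sg_or a j with h1 | h1 <;> rcases sg_or b j with h2 | h2 <;>
      rcases sg_or c j with h3 | h3 <;> rw [h1, h2, h3] <;> norm_num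
  omega

/-! ### Balanced sets -/

theorem sum_pt {n : ℕ} (B : Finset (Fin n → Bool)) (i : Fin n) :
    ∑ b ∈ B, pt b i = ((B.card : ℝ) - ∑ b ∈ B, (sg b i : ℝ)) / 2 := by
  simp_rw [pt_eq]
  rw [← Finset.sum_div, Finset.sum_sub_distrib]
  simp

theorem isBalanced_of {n : ℕ} {B : Finset (Fin n → Bool)} (hB : B.Nonempty)
    (h : ∀ i, ∑ b ∈ B, sg b i = 0) : IsBalanced B := by
  refine ⟨hB, ?_⟩
  have hc : (B.card : ℝ) ≠ 0 := by
    have := hB.card_pos
    positivity
  funext i
  have h1 : ∑ b ∈ B, (sg b i : ℝ) = 0 := by exact_mod_cast h i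
  rw [Pi.smul_apply, Finset.sum_apply, sum_pt, h1, smul_eq_mul]
  unfold center
  field_simp
  ring

theorem sg_sum_of_isBalanced {n : ℕ} {B : Finset (Fin n → Bool)} (h : IsBalanced B) (i : Fin n) :
    ∑ b ∈ B, sg b i = 0 := by
  obtain ⟨hB, h⟩ := h
  have hc : (B.card : ℝ) ≠ 0 := by
    have := hB.card_pos
    positivity
  have h1 := congrFun h i
  rw [Pi.smul_apply, smul_eq_mul, Finset.sum_apply, sum_pt] at h1
  unfold center at h1
  have h4 : ∑ b ∈ B, (sg b i : ℝ) = 0 := by
    field_simp at h1
    linarith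
  exact_mod_cast h4

/-- `Bal n R`: some balanced set of vertices has all its Hamming distances at most `R`. -/
def Bal (n R : ℕ) : Prop :=
  ∃ B : Finset (Fin n → Bool), IsBalanced B ∧ ∀ a ∈ B, ∀ b ∈ B, hammingDist a b ≤ R

/-- Product with `{0,1}`. -/
theorem Bal.succ {n R : ℕ} (h : Bal n R) : Bal (n + 1) (R + 1) := by
  classical
  obtain ⟨B, hB, hd⟩ := h
  set f : (Fin n → Bool) × Bool → (Fin (n + 1) → Bool) := fun p => Fin.snoc p.1 p.2 with hf
  have hinj : Function.Injective f := by
    rintro ⟨a, x⟩ ⟨b, y⟩ h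
    simp only [hf] at h
    have h1 := Fin.snoc_injective2 h
    exact Prod.ext h1.1 h1.2
  refine ⟨(B ×ˢ (Finset.univ : Finset Bool)).image f, isBalanced_of ?_ ?_, ?_⟩
  · exact (hB.1.product Finset.univ_nonempty).image f
  · intro i
    rw [Finset.sum_image (fun a _ b _ hab => hinj hab), Finset.sum_product]
    refine Fin.lastCases ?_ (fun j => ?_) i
    · apply Finset.sum_eq_zero
      intro b _
      simp [hf, sg]
    · have h1 := sg_sum_of_isBalanced hB j
      have h2 : ∀ b : Fin n → Bool, ∑ x : Bool, sg (f (b, x)) (Fin.castSucc j) = 2 * sg b j := by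
        intro b
        simp only [hf, sg, Fin.snoc_castSucc, Finset.sum_const, Finset.card_univ,
          Fintype.card_bool]
        ring
      simp_rw [h2]
      rw [← Finset.mul_sum, h1, mul_zero]
  · intro a ha b hb
    rw [Finset.mem_image] at ha hb
    obtain ⟨⟨a, x⟩, ha, rfl⟩ := ha
    obtain ⟨⟨b, y⟩, hb, rfl⟩ := hb
    rw [Finset.mem_product] at ha hb
    have h1 := hd a ha.1 b hb.1
    have h2 : ip (f (a, x)) (f (b, y)) = ip a b + (if x then -1 else 1) * (if y then -1 else 1) := by
      unfold ip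
      rw [Fin.sum_univ_castSucc]
      congr 1
      · apply Finset.sum_congr rfl
        intro i _
        simp [hf, sg]
      · simp [hf, sg]
    have h3 : (-1 : ℤ) ≤ (if x then -1 else 1) * (if y then -1 else 1) := by
      cases x <;> cases y <;> simp
    rw [ip_eq, ip_eq] at h2
    push_cast at h2
    omega

/-- The balanced sets obtained from a Hadamard matrix of order `N`. -/
theorem bal_of_hadamard {N n : ℕ} (H : Matrix (Fin N) (Fin N) ℤ) (hH : H.IsHadamard)
    (hn : n + 1 ≤ N) (h2n : N < 2 * n + 2) (hpar : N % 2 = 0) : Bal n (N / 2) := by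
  classical
  have hpm : ∀ i j, H i j = 1 ∨ H i j = -1 := fun i j =>
    Unitary.mem_iff_eq_one_or_eq_neg_one.mp (hH.apply_mem i j)
  have hrow : ∀ ⦃i k : Fin N⦄, i ≠ k → ∑ j, H i j * H k j = 0 := by
    intro i k hik
    simpa [Matrix.mul_apply, hik] using congr_fun (congr_fun hH.mul_conjTranspose i) k
  have hcol : ∀ ⦃i k : Fin N⦄, i ≠ k → ∑ j, H j i * H j k = 0 := by
    intro i k hik
    simpa [Matrix.mul_apply, hik] using congr_fun (congr_fun hH.conjTranspose_mul i) k
  let z : Fin N := ⟨0, by omega⟩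
  let e : Fin n → Fin N := fun j => ⟨j + 1, by omega⟩
  have hez : ∀ j, e j ≠ z := by
    intro j h
    have := congrArg Fin.val h
    simp [e, z] at this
  have heinj : Function.Injective e := by
    intro i j h
    have := congrArg Fin.val h
    simp only [e] at this
    exact Fin.ext (by omega)
  let g : Fin N → (Fin n → Bool) := fun i j => decide (H i (e j) ≠ H i z)
  have hg : ∀ i j, sg (g i) j = H i (e j) * H i z := by
    intro i j
    have h0 : sg (g i) j = if H i (e j) ≠ H i z then -1 else 1 := by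
      simp [sg, g]
    rw [h0]
    rcases hpm i (e j) with h1 | h1 <;> rcases hpm i z with h2 | h2 <;> rw [h1, h2] <;> norm_num
  -- inner products
  have hip : ∀ i k, i ≠ k → (n : ℤ) - N ≤ ip (g i) (g k) ∧ ip (g i) (g k) ≤ (N : ℤ) - 2 - n := by
    intro i k hik
    set u : Fin N → ℤ := fun m => H i m * H i z * (H k m * H k z) with hu
    have hu1 : ∀ m, -1 ≤ u m ∧ u m ≤ 1 := by
      intro m
      simp only [hu]
      rcases hpm i m with h1 | h1 <;> rcases hpm i z with h2 | h2 <;>
        rcases hpm k m with h3 | h3 <;> rcases hpm k z with h4 | h4 <;>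
        rw [h1, h2, h3, h4] <;> norm_num
    have hu0 : u z = 1 := by
      simp only [hu]
      rcases hpm i z with h2 | h2 <;> rcases hpm k z with h4 | h4 <;> rw [h2, h4] <;> norm_num
    have hsum : ∑ m, u m = 0 := by
      have : ∀ m, u m = (H i z * H k z) * (H i m * H k m) := by
        intro m
        simp only [hu]; ring
      simp_rw [this]
      rw [← Finset.mul_sum, hrow hik, mul_zero]
    have hipu : ip (g i) (g k) = ∑ j, u (e j) := by
      unfold ip
      apply Finset.sum_congr rfl
      intro j _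
      rw [hg, hg]
    set A : Finset (Fin N) := insert z (Finset.univ.image e) with hA
    have hzA : z ∉ Finset.univ.image e := by
      intro h
      rw [Finset.mem_image] at h
      obtain ⟨j, _, hj⟩ := h
      exact hez j hj
    have hAcard : A.card = n + 1 := by
      rw [hA, Finset.card_insert_of_notMem hzA, Finset.card_image_of_injective _ heinj]
      simp
    have hAsum : ∑ m ∈ A, u m = 1 + ip (g i) (g k) := by
      rw [hA, Finset.sum_insert hzA, hu0, Finset.sum_image (fun a _ b _ hab => heinj hab), hipu]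
    have hcompl : ∑ m ∈ A, u m + ∑ m ∈ Aᶜ, u m = 0 := by
      rw [Finset.sum_add_sum_compl, hsum]
    have hccard : (Aᶜ.card : ℤ) = (N : ℤ) - 1 - n := by
      rw [Finset.card_compl, hAcard, Fintype.card_fin]
      omega
    have hup : ∑ m ∈ Aᶜ, u m ≤ (N : ℤ) - 1 - n := by
      rw [← hccard]
      calc ∑ m ∈ Aᶜ, u m ≤ ∑ m ∈ Aᶜ, 1 := Finset.sum_le_sum (fun m _ => (hu1 m).2)
        _ = (Aᶜ.card : ℤ) := by simp
    have hlo : -((N : ℤ) - 1 - n) ≤ ∑ m ∈ Aᶜ, u m := by
      rw [← hccard]
      calc -(Aᶜ.card : ℤ) = ∑ m ∈ Aᶜ, (-1 : ℤ) := by simp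
        _ ≤ ∑ m ∈ Aᶜ, u m := Finset.sum_le_sum (fun m _ => (hu1 m).1)
    constructor <;> linarith
  have hginj : Function.Injective g := by
    intro i k hgik
    by_contra hik
    have h1 := (hip i k hik).2
    rw [hgik, ip_self] at h1
    omega
  refine ⟨Finset.univ.image g, isBalanced_of ?_ ?_, ?_⟩
  · exact ⟨g z, Finset.mem_image_of_mem _ (Finset.mem_univ _)⟩
  · intro j
    rw [Finset.sum_image (fun a _ b _ hab => hginj hab)]
    simp_rw [hg]
    exact hcol (hez j)
  · intro a ha b hb
    rw [Finset.mem_image] at ha hb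
    obtain ⟨i, _, rfl⟩ := ha
    obtain ⟨k, _, rfl⟩ := hb
    by_cases hik : i = k
    · rw [hik, hammingDist_self]; omega
    · have h1 := (hip i k hik).1
      rw [ip_eq] at h1
      omega

theorem bal_one : Bal 1 1 := by
  refine ⟨Finset.univ, isBalanced_of Finset.univ_nonempty ?_, ?_⟩
  · decide
  · decide

/-- The natural number version of the main theorem. -/
theorem main_nat {n R : ℕ} (hn : 1 ≤ n)
    (hH : ∃ H : Matrix (Fin (4 * ((n + 3) / 4))) (Fin (4 * ((n + 3) / 4))) ℤ, H.IsHadamard)
    {σ : Finset (Fin n → Bool)} {w : (Fin n → Bool) → ℝ} (hw : Sol σ w)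
    (hR : ∀ a ∈ σ, ∀ b ∈ σ, hammingDist a b ≤ R) :
    ∃ R' ≤ R, Bal n R' := by
  obtain ⟨H, hH⟩ := hH
  obtain ⟨k, hk⟩ : ∃ k, k = (n + 3) / 4 := ⟨_, rfl⟩
  have hlow := hw.lower hn hR
  rcases (show n = 4 * k ∨ n + 1 = 4 * k ∨ n + 2 = 4 * k ∨ n + 3 = 4 * k by omega) with
    h | h | h | h
  · -- `n = 4 k`
    have h1 : Bal (n - 1) (4 * ((n + 3) / 4) / 2) :=
      bal_of_hadamard H hH (by omega) (by omega) (by omega)
    have h2 := h1.succ
    rw [show n - 1 + 1 = n by omega] at h2
    exact ⟨_, by omega, h2⟩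
  · exact ⟨_, by omega, bal_of_hadamard H hH (by omega) (by omega) (by omega)⟩
  · exact ⟨_, by omega, bal_of_hadamard H hH (by omega) (by omega) (by omega)⟩
  · by_cases hk1 : n = 1
    · subst hk1
      exact ⟨1, by omega, bal_one⟩
    · have h3 := hw.lower_one (by omega) (by omega) hR
      exact ⟨_, by omega, bal_of_hadamard H hH (by omega) (by omega) (by omega)⟩

/-! ### Hadamard matrices of Sylvester and Paley type -/

theorem HasHadamard.of_fintype {ι : Type*} [Fintype ι] [DecidableEq ι] {N : ℕ}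
    (hN : Fintype.card ι = N) (H : Matrix ι ι ℤ) (hH : H.IsHadamard) : HasHadamard N :=
  ⟨_, hH.reindex (Fintype.equivFinOfCardEq hN) (Fintype.equivFinOfCardEq hN)⟩

/-- A criterion with one-sided orthogonality. -/
theorem isHadamard_of {ι : Type*} [Fintype ι] [DecidableEq ι] [Nonempty ι] (H : Matrix ι ι ℤ)
    (h1 : ∀ i j, H i j = 1 ∨ H i j = -1)
    (h2 : H * Hᵀ = (Fintype.card ι : ℤ) • (1 : Matrix ι ι ℤ)) : H.IsHadamard := by
  apply Matrix.IsHadamard.of_mul_conjTranspose
  · intro i j
    exact Unitary.mem_iff_eq_one_or_eq_neg_one.mpr (h1 i j)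
  · simpa [Matrix.conjTranspose_eq_transpose_of_trivial] using h2
  · rw [isRegular_iff_ne_zero]
    have : 0 < Fintype.card ι := Fintype.card_pos
    positivity

theorem HasHadamard.mul {a b : ℕ} (ha : HasHadamard a) (hb : HasHadamard b) :
    HasHadamard (a * b) := by
  obtain ⟨A, hA⟩ := ha
  obtain ⟨B, hB⟩ := hb
  exact HasHadamard.of_fintype (by simp) _ (hA.kronecker hB)

theorem hasHadamard_two : HasHadamard 2 := by
  refine ⟨!![1, 1; 1, -1], isHadamard_of _ ?_ ?_⟩
  · intro i j
    fin_cases i <;> fin_cases j <;> simp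
  · ext i j
    fin_cases i <;> fin_cases j <;> simp [Matrix.mul_apply, Fin.sum_univ_two]

section paley

variable {F : Type*} [Field F] [Fintype F] [DecidableEq F]

/-- The shifted correlation of the quadratic character. -/
theorem sum_char (hF : ringChar F ≠ 2) {a b : F} (hab : a ≠ b) :
    ∑ x : F, quadraticChar F (a - x) * quadraticChar F (b - x) = -1 := by
  -- substitute `x = a - y`
  have h1 : ∑ x : F, quadraticChar F (a - x) * quadraticChar F (b - x) =
      ∑ y : F, quadraticChar F y * quadraticChar F (y + (b - a)) := by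
    refine Fintype.sum_equiv (Equiv.subLeft a) _ _ ?_
    intro x
    simp only [Equiv.subLeft_apply]
    congr 2
    ring
  rw [h1]
  set c := b - a with hc
  have hc0 : c ≠ 0 := sub_ne_zero.2 hab.symm
  have h2 : ∑ y : F, quadraticChar F y * quadraticChar F (y + c) =
      ∑ y ∈ Finset.univ.erase (0 : F), quadraticChar F (1 + c * y⁻¹) := by
    rw [← Finset.add_sum_erase _ _ (Finset.mem_univ (0 : F))]
    rw [quadraticChar_zero, zero_mul, zero_add]
    apply Finset.sum_congr rfl
    intro y hy
    have hy0 : y ≠ 0 := (Finset.mem_erase.1 hy).1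
    have h3 : y + c = y * (1 + c * y⁻¹) := by field_simp
    rw [h3, map_mul, ← mul_assoc, ← pow_two, quadraticChar_sq_one hy0, one_mul]
  rw [h2]
  have h4 : ∑ y ∈ Finset.univ.erase (0 : F), quadraticChar F (1 + c * y⁻¹) =
      ∑ z ∈ Finset.univ.erase (1 : F), quadraticChar F z := by
    refine Finset.sum_bij' (fun y _ => 1 + c * y⁻¹) (fun z _ => c * (z - 1)⁻¹) ?_ ?_ ?_ ?_ ?_
    · intro y hy
      have hy0 : y ≠ 0 := (Finset.mem_erase.1 hy).1
      rw [Finset.mem_erase]
      refine ⟨?_, Finset.mem_univ _⟩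
      intro h
      have : c * y⁻¹ = 0 := by linear_combination h
      rcases mul_eq_zero.1 this with h | h
      · exact hc0 h
      · exact hy0 (inv_eq_zero.1 h)
    · intro z hz
      have hz1 : z ≠ 1 := (Finset.mem_erase.1 hz).1
      rw [Finset.mem_erase]
      exact ⟨mul_ne_zero hc0 (inv_ne_zero (sub_ne_zero.2 hz1)), Finset.mem_univ _⟩
    · intro y hy
      have hy0 : y ≠ 0 := (Finset.mem_erase.1 hy).1
      have : (1 + c * y⁻¹ - 1) = c * y⁻¹ := by ring
      rw [this]
      field_simp
    · intro z hz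
      have hz1 : z - 1 ≠ 0 := sub_ne_zero.2 (Finset.mem_erase.1 hz).1
      rw [mul_inv, inv_inv]
      field_simp
      ring
    · intro y _
      rfl
  rw [h4]
  have h5 := quadraticChar_sum_zero (F := F) hF
  rw [← Finset.add_sum_erase _ _ (Finset.mem_univ (1 : F)), map_one] at h5
  linarith

/-- The (generalized) conference matrix of Paley. -/
def paleyMatrix (F : Type*) [Field F] [Fintype F] [DecidableEq F] :
    Matrix (Option F) (Option F) ℤ := fun i j =>
  match i, j with
  | none, none => 0
  | none, some _ => 1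
  | some _, none => quadraticChar F (-1)
  | some a, some b => quadraticChar F (a - b)

theorem paley_mul (hF : ringChar F ≠ 2) :
    paleyMatrix F * (paleyMatrix F)ᵀ = (Fintype.card F : ℤ) • (1 : Matrix _ _ ℤ) := by
  have hs : ∀ a : F, ∑ x : F, quadraticChar F (a - x) = 0 := by
    intro a
    rw [← quadraticChar_sum_zero (F := F) hF]
    exact Fintype.sum_equiv (Equiv.subLeft a) _ _ (fun x => rfl)
  have hm1 : quadraticChar F (-1) * quadraticChar F (-1) = 1 := by
    rw [← map_mul]; simp
  have hq : ∀ a : F, ∑ x : F, quadraticChar F (a - x) * quadraticChar F (a - x) =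
      (Fintype.card F : ℤ) - 1 := by
    intro a
    have h1 : ∑ x : F, quadraticChar F (a - x) * quadraticChar F (a - x) =
        ∑ y : F, quadraticChar F y * quadraticChar F y :=
      Fintype.sum_equiv (Equiv.subLeft a) _ _ (fun x => rfl)
    rw [h1, ← Finset.add_sum_erase _ _ (Finset.mem_univ (0 : F)), quadraticChar_zero]
    have h2 : ∀ y ∈ Finset.univ.erase (0 : F), quadraticChar F y * quadraticChar F y = 1 := by
      intro y hy
      rw [← pow_two]
      exact quadraticChar_sq_one (Finset.mem_erase.1 hy).1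
    rw [Finset.sum_congr rfl h2]
    simp [Finset.card_erase_of_mem, Fintype.card_pos]
  ext i j
  rw [Matrix.mul_apply, Fintype.sum_option]
  simp only [Matrix.transpose_apply, Matrix.smul_apply, Matrix.one_apply, smul_eq_mul]
  rcases i with _ | a <;> rcases j with _ | b
  · simp [paleyMatrix]
  · simpa [paleyMatrix] using hs b
  · simpa [paleyMatrix] using hs a
  · by_cases hab : a = b
    · subst hab
      simp only [paleyMatrix, hm1, hq, if_true]
      ring
    · simp only [paleyMatrix, hm1, sum_char hF hab, Option.some.injEq, hab, if_false]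
      ring

theorem paley_transpose :
    (paleyMatrix F)ᵀ = quadraticChar F (-1) • paleyMatrix F := by
  have hm1 : quadraticChar F (-1) * quadraticChar F (-1) = 1 := by
    rw [← map_mul]; simp
  ext i j
  rw [Matrix.transpose_apply, Matrix.smul_apply, smul_eq_mul]
  rcases i with _ | a <;> rcases j with _ | b
  · simp [paleyMatrix]
  · simp [paleyMatrix]
  · exact hm1.symm
  · simp only [paleyMatrix]
    rw [← map_mul]
    congr 1
    ring

theorem paley_offdiag {i j : Option F} (hij : i ≠ j) :
    paleyMatrix F i j = 1 ∨ paleyMatrix F i j = -1 := by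
  rcases i with _ | a <;> rcases j with _ | b
  · exact absurd rfl hij
  · left; rfl
  · exact quadraticChar_dichotomy (neg_ne_zero.2 one_ne_zero)
  · apply quadraticChar_dichotomy
    intro h
    exact hij (congrArg some (sub_eq_zero.1 h))

theorem paley_diag (i : Option F) : paleyMatrix F i i = 0 := by
  rcases i with _ | a <;> simp [paleyMatrix]

theorem hasHadamard_paleyI (h : Fintype.card F % 4 = 3) : HasHadamard (Fintype.card F + 1) := by
  have hF : ringChar F ≠ 2 := by
    intro h2
    have := FiniteField.even_card_iff_char_two.1 h2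
    omega
  have hm1 : quadraticChar F (-1) = -1 := by
    rw [quadraticChar_neg_one_iff_not_isSquare, FiniteField.isSquare_neg_one_iff]
    simpa using h
  have ht := paley_transpose (F := F)
  rw [hm1] at ht
  refine HasHadamard.of_fintype (ι := Option F) (by simp) (paleyMatrix F + 1) (isHadamard_of _ ?_ ?_)
  · intro i j
    rw [Matrix.add_apply]
    by_cases hij : i = j
    · subst hij
      rw [paley_diag, Matrix.one_apply_eq]; left; norm_num
    · rw [Matrix.one_apply_ne hij, add_zero]
      exact paley_offdiag hij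
  · rw [Matrix.transpose_add, Matrix.transpose_one, Matrix.add_mul, Matrix.mul_add, Matrix.mul_add,
      paley_mul hF, ht]
    simp only [Fintype.card_option]
    push_cast
    rw [Matrix.mul_one, Matrix.one_mul, Matrix.one_mul, add_smul, one_smul]
    simp only [neg_smul, one_smul]
    abel

theorem hasHadamard_paleyII (h : Fintype.card F % 4 = 1) :
    HasHadamard (2 * (Fintype.card F + 1)) := by
  have hF : ringChar F ≠ 2 := by
    intro h2
    have := FiniteField.even_card_iff_char_two.1 h2
    omega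
  have hm1 : quadraticChar F (-1) = 1 := by
    rw [quadraticChar_one_iff_isSquare (neg_ne_zero.2 one_ne_zero),
      FiniteField.isSquare_neg_one_iff]
    omega
  have ht := paley_transpose (F := F)
  rw [hm1, one_smul] at ht
  have hmul := paley_mul (F := F) hF
  rw [ht] at hmul
  set C := paleyMatrix F with hC
  refine HasHadamard.of_fintype (ι := Option F ⊕ Option F) (by simp; ring)
    (Matrix.fromBlocks (C + 1) (C - 1) (C - 1) (-C - 1)) (isHadamard_of _ ?_ ?_)
  · have hd : ∀ i j, C i j + (1 : Matrix (Option F) (Option F) ℤ) i j = 1 ∨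
        C i j + (1 : Matrix (Option F) (Option F) ℤ) i j = -1 := by
      intro i j
      by_cases hij : i = j
      · subst hij
        rw [hC, paley_diag, Matrix.one_apply_eq]; left; norm_num
      · rw [Matrix.one_apply_ne hij, add_zero]
        exact paley_offdiag hij
    have hd2 : ∀ i j, C i j - (1 : Matrix (Option F) (Option F) ℤ) i j = 1 ∨
        C i j - (1 : Matrix (Option F) (Option F) ℤ) i j = -1 := by
      intro i j
      by_cases hij : i = j
      · subst hij
        rw [hC, paley_diag, Matrix.one_apply_eq]; right; norm_num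
      · rw [Matrix.one_apply_ne hij, sub_zero]
        exact paley_offdiag hij
    rintro (i | i) (j | j)
    · exact hd i j
    · exact hd2 i j
    · exact hd2 i j
    · have := hd i j
      simp only [Matrix.fromBlocks_apply₂₂, Matrix.sub_apply, Matrix.neg_apply]
      omega
  · rw [Matrix.fromBlocks_transpose, Matrix.fromBlocks_multiply]
    simp only [Matrix.transpose_add, Matrix.transpose_sub, Matrix.transpose_neg,
      Matrix.transpose_one, ht]
    have e1 : (C + 1) * (C + 1) + (C - 1) * (C - 1) =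
        ((Fintype.card (Option F ⊕ Option F) : ℕ) : ℤ) • (1 : Matrix (Option F) (Option F) ℤ) := by
      have : (C + 1) * (C + 1) + (C - 1) * (C - 1) = (2 : ℤ) • (C * C) + (2 : ℤ) • 1 := by
        noncomm_ring
      rw [this, hmul]
      simp only [Fintype.card_sum, Fintype.card_option]
      push_cast
      rw [smul_smul, ← add_smul]
      congr 1
      ring
    have e2 : (C + 1) * (C - 1) + (C - 1) * (-C - 1) = 0 := by
      noncomm_ring
    have e3 : (C - 1) * (C + 1) + (-C - 1) * (C - 1) = 0 := by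
      noncomm_ring
    have e4 : (C - 1) * (C - 1) + (-C - 1) * (-C - 1) =
        ((Fintype.card (Option F ⊕ Option F) : ℕ) : ℤ) • (1 : Matrix (Option F) (Option F) ℤ) := by
      rw [← e1]
      noncomm_ring
    rw [e1, e2, e3, e4, ← Matrix.fromBlocks_one, Matrix.fromBlocks_smul]
    simp

end paley


theorem hasHadamard_of_paleySylvester {N : ℕ} (h : PaleySylvester N) : HasHadamard N := by
  classical
  induction h with
  | two => exact hasHadamard_two
  | paleyI q hq h =>
    obtain ⟨p, k, hp, hk, rfl⟩ := (isPrimePow_nat_iff q).1 hq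
    have : Fact p.Prime := ⟨hp⟩
    let _ : Fintype (GaloisField p k) := Fintype.ofFinite _
    have hcard : Fintype.card (GaloisField p k) = p ^ k := by
      rw [Fintype.card_eq_nat_card, GaloisField.card p k hk.ne']
    have := hasHadamard_paleyI (F := GaloisField p k) (by rw [hcard]; exact h)
    rwa [hcard] at this
  | paleyII q hq h =>
    obtain ⟨p, k, hp, hk, rfl⟩ := (isPrimePow_nat_iff q).1 hq
    have : Fact p.Prime := ⟨hp⟩
    let _ : Fintype (GaloisField p k) := Fintype.ofFinite _
    have hcard : Fintype.card (GaloisField p k) = p ^ k := by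
      rw [Fintype.card_eq_nat_card, GaloisField.card p k hk.ne']
    have := hasHadamard_paleyII (F := GaloisField p k) (by rw [hcard]; exact h)
    rwa [hcard] at this
  | mul a b _ _ ha hb => exact ha.mul hb

end Pool.Agent.Results.MP_039f5e_co.HadamardDimensions
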