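import Mathlib
import Pool.Agent.Lib.CubeBal.Blocks

/-!
# Balanced vertex sets in the cube: the question in given dimension and at given radius

`Q1 n r` is the assertion of the problem in dimension `n` and at radius `r`. It holds for small `r`
(no assumption), and for all `r ≥ R` if there is a balanced set of diameter at most `R`.
-/

open Finset Matrix

namespace Pool.Agent.CubeBal

/-- The assertion of the problem for the pair `(n, r)`: if the centre lies in the image of `f_n`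
at radius `r`, then some balanced set of vertices has diameter at most `r`. -/
def Q1 (n : ℕ) (r : ℝ) : Prop :=
  CenterInImage n r → ∃ B : Finset (Fin n → Bool), IsBalanced B ∧ DiamLE B r

theorem q1_of_bal {n R : ℕ} (h : Bal n R) {r : ℝ} (hr : (R : ℝ) ≤ r) : Q1 n r := by
  intro _
  obtain ⟨B, hB, hd⟩ := h
  refine ⟨B, hB, fun a ha b hb => le_trans ?_ hr⟩
  exact_mod_cast hd a ha b hb

/-- The centre is not in the image if `r < (n + 1) / 2`. -/
theorem not_center_of_lt {n : ℕ} (hn : 1 ≤ n) {r : ℝ} (h : CenterInImage n r) :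
    0 ≤ r ∧ n + 1 ≤ 2 * ⌊r⌋₊ ∧ ∃ (σ : Finset (Fin n → Bool)) (w : (Fin n → Bool) → ℝ),
      Sol σ w ∧ ∀ a ∈ σ, ∀ b ∈ σ, hammingDist a b ≤ ⌊r⌋₊ := by
  obtain ⟨σ, ⟨a0, ha0⟩, hσ, hc⟩ := h
  obtain ⟨w, hw⟩ := exists_sol hc
  have hr : 0 ≤ r := by
    have := hσ a0 ha0 a0 ha0
    rwa [hammingDist_self, Nat.cast_zero] at this
  have hR : ∀ a ∈ σ, ∀ b ∈ σ, hammingDist a b ≤ ⌊r⌋₊ :=
    fun a ha b hb => Nat.le_floor (hσ a ha b hb)
  exact ⟨hr, hw.lower hn hR, σ, w, hw, hR⟩

theorem q1_small_even {n : ℕ} (hn : 1 ≤ n) (he : Even n) {r : ℝ} (hr : r < ((n : ℝ) + 2) / 2) :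
    Q1 n r := by
  intro h
  exfalso
  obtain ⟨h0, h1, -⟩ := not_center_of_lt hn h
  have h2 : (⌊r⌋₊ : ℝ) ≤ r := Nat.floor_le h0
  have h3 : (2 * (⌊r⌋₊ : ℕ) : ℝ) < (n : ℝ) + 2 := by linarith
  have h4 : 2 * ⌊r⌋₊ < n + 2 := by exact_mod_cast h3
  obtain ⟨m, hm⟩ := he
  omega

/-- For odd `n` and `r < (n + 3) / 2` the centre lies in the image at radius `r` only if
`r ≥ (n + 1) / 2` and there is a Hadamard matrix of order `n + 1`. -/
theorem hadamard_of_center_odd {n : ℕ} (ho : Odd n) {r : ℝ} (hr : r < ((n : ℝ) + 3) / 2)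
    (h : CenterInImage n r) : ((n : ℝ) + 1) / 2 ≤ r ∧ HasHadamard (n + 1) := by
  have hn : 1 ≤ n := ho.pos
  obtain ⟨h0, h1, σ, w, hw, hR⟩ := not_center_of_lt hn h
  have h2 : (⌊r⌋₊ : ℝ) ≤ r := Nat.floor_le h0
  have h3 : (2 * (⌊r⌋₊ : ℕ) : ℝ) < (n : ℝ) + 3 := by linarith
  have h4 : 2 * ⌊r⌋₊ < n + 3 := by exact_mod_cast h3
  obtain ⟨m, hm⟩ := ho
  have h5 : 2 * ⌊r⌋₊ = n + 1 := by omega
  refine ⟨?_, hasHadamard_of_sol hw (fun a ha b hb => ?_)⟩
  · have h6 : (2 * (⌊r⌋₊ : ℕ) : ℝ) = (n : ℝ) + 1 := by exact_mod_cast h5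
    linarith
  · have := hR a ha b hb
    omega

theorem bal_hadamard_odd {n : ℕ} (ho : Odd n) (h : HasHadamard (n + 1)) : Bal n ((n + 1) / 2) := by
  obtain ⟨H, hH⟩ := h
  obtain ⟨m, hm⟩ := ho
  exact bal_of_hadamard (n := n) H hH (by omega) (by omega) (by omega)

theorem q1_small_odd {n : ℕ} (ho : Odd n) {r : ℝ} (hr : r < ((n : ℝ) + 3) / 2) : Q1 n r := by
  intro h
  obtain ⟨h1, h2⟩ := hadamard_of_center_odd ho hr h
  have h3 := bal_hadamard_odd ho h2
  refine q1_of_bal h3 ?_ h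
  obtain ⟨m, hm⟩ := ho
  have h4 : 2 * ((n + 1) / 2) = n + 1 := by omega
  have h5 : (2 : ℝ) * (((n + 1) / 2 : ℕ) : ℝ) = (n : ℝ) + 1 := by exact_mod_cast h4
  linarith

/-- For odd `n` and `(n + 1) / 2 ≤ r < (n + 3) / 2`: the centre lies in the image at radius `r`
if and only if there is a Hadamard matrix of order `n + 1`. -/
theorem center_iff_odd {n : ℕ} (ho : Odd n) {r : ℝ} (h1 : ((n : ℝ) + 1) / 2 ≤ r)
    (h2 : r < ((n : ℝ) + 3) / 2) : CenterInImage n r ↔ HasHadamard (n + 1) := by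
  refine ⟨fun h => (hadamard_of_center_odd ho h2 h).2, fun h => ?_⟩
  obtain ⟨B, hB, hd⟩ := bal_hadamard_odd ho h
  refine centerInImage_of_balanced hB (fun a ha b hb => ?_)
  have h3 := hd a ha b hb
  have h4 : 2 * hammingDist a b ≤ n + 1 := by
    obtain ⟨m, hm⟩ := ho
    omega
  have h5 : (2 : ℝ) * (hammingDist a b : ℝ) ≤ (n : ℝ) + 1 := by exact_mod_cast h4
  linarith

theorem q1_even {n R : ℕ} (hn : 1 ≤ n) (he : Even n) (h : Bal n R) (hR : 2 * R ≤ n + 2) (r : ℝ) :
    Q1 n r := by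
  by_cases hr : r < ((n : ℝ) + 2) / 2
  · exact q1_small_even hn he hr
  · refine q1_of_bal h ?_
    have : (2 : ℝ) * R ≤ (n : ℝ) + 2 := by exact_mod_cast hR
    push Not at hr
    linarith

theorem q1_odd {n R : ℕ} (ho : Odd n) (h : Bal n R) (hR : 2 * R ≤ n + 3) (r : ℝ) : Q1 n r := by
  by_cases hr : r < ((n : ℝ) + 3) / 2
  · exact q1_small_odd ho hr
  · refine q1_of_bal h ?_
    have : (2 : ℝ) * R ≤ (n : ℝ) + 3 := by exact_mod_cast hR
    push Not at hr
    linarith

/-! ### Hadamard orders are even -/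

theorem hasHadamard_even {N : ℕ} (h : HasHadamard N) (hN : 2 ≤ N) : N % 2 = 0 := by
  obtain ⟨H, hH⟩ := h
  have hpm : ∀ i j, H i j = 1 ∨ H i j = -1 := fun i j =>
    Unitary.mem_iff_eq_one_or_eq_neg_one.mp (hH.apply_mem i j)
  have hne : (⟨0, by omega⟩ : Fin N) ≠ ⟨1, by omega⟩ := by
    intro h
    have := congrArg Fin.val h
    simp at this
  have hrow : ∑ j, H ⟨0, by omega⟩ j * H ⟨1, by omega⟩ j = 0 := by
    simpa [Matrix.mul_apply, hne] using
      congr_fun (congr_fun hH.mul_conjTranspose ⟨0, by omega⟩) ⟨1, by omega⟩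
  have h1 : ∑ j : Fin N, (H ⟨0, by omega⟩ j * H ⟨1, by omega⟩ j + 1) = (N : ℤ) := by
    rw [Finset.sum_add_distrib, hrow]
    simp
  have h2 : (2 : ℤ) ∣ (N : ℤ) := by
    rw [← h1]
    apply Finset.dvd_sum
    intro j _
    rcases hpm ⟨0, by omega⟩ j with h3 | h3 <;> rcases hpm ⟨1, by omega⟩ j with h4 | h4 <;>
      rw [h3, h4] <;> norm_num
  omega

theorem bal_block {a : ℕ} (ha : 1 ≤ a) (h : HasHadamard (a + 1)) :
    a % 2 = 1 ∧ Bal a ((a + 1) / 2) := by
  have h1 := hasHadamard_even h (by omega)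
  have h2 : a % 2 = 1 := by omega
  exact ⟨h2, bal_hadamard_odd (Nat.odd_iff.2 h2) h⟩

theorem bal_one' : Bal 1 1 := bal_one

/-- Products of several blocks. -/
theorem bal_list (L : List ℕ) (hL : L ≠ []) (h : ∀ a ∈ L, 1 ≤ a ∧ HasHadamard (a + 1)) :
    ∃ R, 2 * R = L.sum + L.length ∧ Bal L.sum R := by
  induction L with
  | nil => exact absurd rfl hL
  | cons a L ih =>
    obtain ⟨ha, hb⟩ := bal_block (h a (by simp)).1 (h a (by simp)).2
    by_cases hL' : L = []
    · subst hL'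
      refine ⟨(a + 1) / 2, by simp; omega, by simpa using hb⟩
    · obtain ⟨R, hR, hB⟩ := ih hL' (fun b hb => h b (by simp [hb]))
      refine ⟨(a + 1) / 2 + R, ?_, ?_⟩
      · simp only [List.sum_cons, List.length_cons]
        omega
      · simpa using hb.add hB

/-! ### Good values of `k` -/

/-- `k` is good if there is a Hadamard matrix of order `4 k`, or a symmetric conference matrix of
order `4 k - 2`, or `k = s + t` with Hadamard matrices of orders `4 s` and `4 t`. -/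
def Good (k : ℕ) : Prop :=
  HasHadamard (4 * k) ∨ HasSymmetricConference (4 * k - 2) ∨
    ∃ s t : ℕ, 1 ≤ s ∧ 1 ≤ t ∧ s + t = k ∧ HasHadamard (4 * s) ∧ HasHadamard (4 * t)

/-- Blocks in the dimensions `4 k - 2` and `4 k - 3`. -/
theorem Good.bal {k : ℕ} (hk : 1 ≤ k) (h : Good k) :
    Bal (4 * k - 2) (2 * k) ∧ (2 ≤ k → Bal (4 * k - 3) (2 * k)) := by
  rcases h with h | h | ⟨s, t, hs, ht, hst, h1, h2⟩
  · obtain ⟨H, hH⟩ := h
    have e : 4 * k / 2 = 2 * k := by omega
    constructor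
    · have := bal_of_hadamard (n := 4 * k - 2) H hH (by omega) (by omega) (by omega)
      rwa [e] at this
    · intro hk2
      have := bal_of_hadamard (n := 4 * k - 3) H hH (by omega) (by omega) (by omega)
      rwa [e] at this
  · obtain ⟨m, hm⟩ : ∃ m, 4 * k - 2 = m + 1 := ⟨4 * k - 3, by omega⟩
    have hm' : 4 * k - 3 = m := by omega
    rw [hm, hm']
    rw [hm] at h
    constructor
    · exact bal_of_conference (by omega) (by omega) h
    · intro _
      exact bal_of_core (by omega) (by omega) h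
  · obtain ⟨H, hH⟩ := h1
    obtain ⟨H', hH'⟩ := h2
    have e1 : 4 * s / 2 = 2 * s := by omega
    have e2 : 4 * t / 2 = 2 * t := by omega
    have b1 := bal_of_hadamard (n := 4 * s - 1) H hH (by omega) (by omega) (by omega)
    have b2 := bal_of_hadamard (n := 4 * t - 1) H' hH' (by omega) (by omega) (by omega)
    have b3 := bal_of_hadamard (n := 4 * t - 2) H' hH' (by omega) (by omega) (by omega)
    rw [e1] at b1
    rw [e2] at b2 b3
    constructor
    · have := b1.add b2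
      rwa [show 4 * s - 1 + (4 * t - 1) = 4 * k - 2 by omega,
        show 2 * s + 2 * t = 2 * k by omega] at this
    · intro _
      have := b1.add b3
      rwa [show 4 * s - 1 + (4 * t - 2) = 4 * k - 3 by omega,
        show 2 * s + 2 * t = 2 * k by omega] at this

/-- In the dimensions `n` not divisible by `4` with `⌈n / 4⌉` good the question is settled. -/
theorem q1_good {k n : ℕ} (h : Good k) (hk : (n + 3) / 4 = k) (hn : 1 ≤ n) (h4 : n % 4 ≠ 0)
    (r : ℝ) : Q1 n r := by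
  obtain ⟨h1, h2⟩ := h.bal (by omega)
  rcases (show n = 4 * k - 3 ∨ n = 4 * k - 2 ∨ n = 4 * k - 1 by omega) with e | e | e
  · by_cases hk2 : 2 ≤ k
    · have := h2 hk2
      rw [← e] at this
      exact q1_odd (Nat.odd_iff.2 (by omega)) this (by omega) r
    · have : n = 1 := by omega
      subst this
      exact q1_odd (by decide) bal_one (by norm_num) r
  · rw [← e] at h1
    exact q1_even hn (Nat.even_iff.2 (by omega)) h1 (by omega) r
  · have h3 := h1.succ
    rw [show 4 * k - 2 + 1 = n by omega] at h3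
    exact q1_odd (Nat.odd_iff.2 (by omega)) h3 (by omega) r

/-- In the dimensions `n = 4 k`. -/
theorem q1_four {k : ℕ} (hk : 1 ≤ k) (h : Good k) {r : ℝ}
    (hr : HasHadamard (4 * k) ∨ r < ((4 * k : ℕ) : ℝ) / 2 + 1 ∨ ((4 * k : ℕ) : ℝ) / 2 + 2 ≤ r) :
    Q1 (4 * k) r := by
  rcases hr with h1 | h1 | h1
  · have h2 : Bal (4 * k - 1) (4 * k / 2) := by
      obtain ⟨H, hH⟩ := h1
      exact bal_of_hadamard (n := 4 * k - 1) H hH (by omega) (by omega) (by omega)
    have h3 := h2.succ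
    rw [show 4 * k - 1 + 1 = 4 * k by omega] at h3
    exact q1_even (by omega) (Nat.even_iff.2 (by omega)) h3 (by omega) r
  · exact q1_small_even (by omega) (Nat.even_iff.2 (by omega)) (by linarith)
  · have h2 := (h.bal hk).1.succ.succ
    rw [show 4 * k - 2 + 1 + 1 = 4 * k by omega] at h2
    refine q1_of_bal h2 (le_trans (le_of_eq ?_) h1)
    push_cast
    ring

/-! ### The logarithmic bound -/

theorem hasHadamard_two_pow (a : ℕ) (ha : 1 ≤ a) : HasHadamard (2 ^ a) := by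
  induction a with
  | zero => omega
  | succ a ih =>
    by_cases h : a = 0
    · subst h
      simpa using hasHadamard_two
    · rw [pow_succ]
      exact (ih (by omega)).mul hasHadamard_two

theorem bal_log (n : ℕ) (hn : 1 ≤ n) : ∃ R, 2 * R ≤ n + 1 + Nat.log 2 (n + 1) ∧ Bal n R := by
  induction n using Nat.strong_induction_on with
  | _ n ih =>
    set a := Nat.log 2 (n + 1) with ha
    have h1 : 2 ^ a ≤ n + 1 := Nat.pow_log_le_self 2 (by omega)
    have h2 : n + 1 < 2 ^ (a + 1) := Nat.lt_pow_succ_log_self (by norm_num) _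
    have ha1 : 1 ≤ a := by
      by_contra hcon
      have : a = 0 := by omega
      rw [this] at h2
      omega
    obtain ⟨b, hb⟩ : ∃ b, a = b + 1 := ⟨a - 1, by omega⟩
    have hpow : 2 ^ a = 2 * 2 ^ b := by rw [hb, pow_succ]; ring
    have hpow1 : 2 ^ (a + 1) = 4 * 2 ^ b := by rw [hb]; ring
    have hbpos : 1 ≤ 2 ^ b := Nat.one_le_two_pow
    have hblock : Bal (2 ^ a - 1) (2 ^ b) := by
      have h3 := hasHadamard_two_pow a ha1
      rw [← Nat.sub_add_cancel (show 1 ≤ 2 ^ a by omega)] at h3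
      have h4 := (bal_block (a := 2 ^ a - 1) (by omega) h3).2
      rwa [show (2 ^ a - 1 + 1) / 2 = 2 ^ b by omega] at h4
    obtain ⟨m, hm⟩ : ∃ m, n + 1 = 2 ^ a + m := ⟨n + 1 - 2 ^ a, by omega⟩
    by_cases hm0 : m = 0
    · refine ⟨2 ^ b, by omega, ?_⟩
      have : n = 2 ^ a - 1 := by omega
      rw [this]
      exact hblock
    · by_cases hm1 : m = 2 ^ a - 1
      · refine ⟨2 ^ b + 2 ^ b, by omega, ?_⟩
        have h3 := hblock.add hblock
        rwa [show 2 ^ a - 1 + (2 ^ a - 1) = n by omega] at h3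
      · obtain ⟨R, hR, hB⟩ := ih m (by omega) (by omega)
        have h3 : Nat.log 2 (m + 1) < a := Nat.log_lt_of_lt_pow (by omega) (by omega)
        refine ⟨2 ^ b + R, by omega, ?_⟩
        have h4 := hblock.add hB
        rwa [show 2 ^ a - 1 + m = n by omega] at h4

theorem q1_log {n : ℕ} (hn : 1 ≤ n) {r : ℝ}
    (hr : ((n : ℝ) + 1 + (Nat.log 2 (n + 1) : ℕ)) / 2 ≤ r) : Q1 n r := by
  obtain ⟨R, hR, hB⟩ := bal_log n hn
  refine q1_of_bal hB (le_trans ?_ hr)
  have : (2 : ℝ) * R ≤ (n : ℝ) + 1 + (Nat.log 2 (n + 1) : ℕ) := by exact_mod_cast hR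
  linarith

/-! ### Primes congruent to `3` modulo `4` -/

theorem hasHadamard_prime {p : ℕ} (hp : p.Prime) (h : p % 4 = 3) : HasHadamard (p + 1) :=
  hasHadamard_of_paleySylvester (.paleyI p hp.isPrimePow h)

theorem bal_prime {p : ℕ} (hp : p.Prime) (h : p % 4 = 3) : Bal p ((p + 1) / 2) :=
  (bal_block hp.pos (hasHadamard_prime hp h)).2

/-- If `2 x` is the sum of two primes congruent to `3` modulo `4`, then `(x + 1) / 2` is good. -/
theorem good_of_two_primes {k p q : ℕ} (hp : p.Prime) (hq : q.Prime) (hp3 : p % 4 = 3)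
    (hq3 : q % 4 = 3) (h : p + q + 2 = 4 * k) : Good k := by
  refine Or.inr (Or.inr ⟨(p + 1) / 4, (q + 1) / 4, by omega, by omega, by omega, ?_, ?_⟩)
  · rw [show 4 * ((p + 1) / 4) = p + 1 by omega]
    exact hasHadamard_prime hp hp3
  · rw [show 4 * ((q + 1) / 4) = q + 1 by omega]
    exact hasHadamard_prime hq hq3

/-- Three primes congruent to `3` modulo `4`. -/
theorem bal_three_primes {p q l : ℕ} (hp : p.Prime) (hq : q.Prime) (hl : l.Prime)
    (hp3 : p % 4 = 3) (hq3 : q % 4 = 3) (hl3 : l % 4 = 3) :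
    Bal (p + q + l) ((p + q + l + 3) / 2) := by
  have h := ((bal_prime hp hp3).add (bal_prime hq hq3)).add (bal_prime hl hl3)
  rwa [show (p + 1) / 2 + (q + 1) / 2 + (l + 1) / 2 = (p + q + l + 3) / 2 by omega] at h

end Pool.Agent.CubeBal
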