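import Pool.Agent.Lib.CubeBal.XG
import Pool.Agent.Lib.H18E.DG
import Pool.Agent.Lib.H57S.S5

/-!
# Sums of two and of three primes congruent to `3` modulo `4`

For every `A` and all large `n`, all but at most `n / (log n)^A` of the odd `x ∈ (n/2, n]` have
`≫ n / (log n)^2` representations `2 x = p + q` with primes `p, q ≡ 3 (mod 4)`. Consequently all large
`N ≡ 1 (mod 4)` are sums of three primes congruent to `3` modulo `4`.
-/

open Finset Pool.Agent.Lib.H68T Pool.Agent.Lib.H18E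

namespace Pool.Agent.CubeBal

/-- The residue of `Y` modulo `4`. -/
def ycl (x : ℕ) : ℕ := if x % 4 = 1 then 2 else 0

theorem ycl_or {x : ℕ} (hx : x % 2 = 1) : (x % 4 = 1 ∧ ycl x = 2) ∨ (x % 4 = 3 ∧ ycl x = 0) := by
  unfold ycl
  rcases (show x % 4 = 1 ∨ x % 4 = 3 by omega) with h | h <;> simp [h]

theorem ycl_compat {x : ℕ} (hx : x % 2 = 1) : ycl x ∈ compat 4 x := by
  classical
  unfold compat
  rw [mem_filter, mem_range]
  have hodd : ∀ m : ℤ, m % 2 = 1 → IsCoprime m ((4 : ℕ) : ℤ) := by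
    intro m hm
    have h1 : IsCoprime m 2 := by
      refine ⟨1, -(m / 2), ?_⟩
      have := Int.emod_add_mul_ediv m 2
      linarith
    have h2 := h1.mul_right h1
    norm_num at h2 ⊢
    exact h2
  rcases ycl_or hx with ⟨h1, h2⟩ | ⟨h1, h2⟩ <;> rw [h2]
  · exact ⟨by norm_num, hodd _ (by push_cast; omega), hodd _ (by push_cast; omega)⟩
  · exact ⟨by norm_num, hodd _ (by push_cast; omega), hodd _ (by push_cast; omega)⟩

/-- Levels without exceptional zeros, in the regime `Reg K`. -/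
theorem levels : ∃ c : ℝ, 0 < c ∧ ∀ K : ℝ, ∃ n0 : ℕ, ∀ n : ℕ, n0 ≤ n → ∃ Q : ℕ,
    Reg K Q n ∧ Good c Q := by
  obtain ⟨c, hc, h⟩ := Pool.Agent.Lib.H57S.good_level
  refine ⟨c, hc, fun K => ?_⟩
  set K' := max K 1 with hK'
  have hKK : K ≤ K' := le_max_left _ _
  have hK1 : 1 ≤ K' := le_max_right _ _
  obtain ⟨Y0, hY0⟩ := h K'
  -- growth conditions
  have hev : ∀ᶠ y : ℝ in Filter.atTop, K' ≤ Real.log y ∧ K' * Real.log y ≤ Real.sqrt y ∧ 1 ≤ y := by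
    have h1 := Real.tendsto_log_atTop.eventually_ge_atTop K'
    have h2 := (isLittleO_log_rpow_atTop (show (0 : ℝ) < 1 / 2 by norm_num)).bound
      (show (0 : ℝ) < 1 / K' by positivity)
    filter_upwards [h1, h2, Filter.eventually_ge_atTop (1 : ℝ)] with y h1 h2 h3
    refine ⟨h1, ?_, h3⟩
    rw [Real.norm_of_nonneg (Real.log_nonneg h3), Real.norm_of_nonneg (by positivity),
      ← Real.sqrt_eq_rpow] at h2
    have h4 : K' * Real.log y ≤ K' * (1 / K' * Real.sqrt y) :=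
      mul_le_mul_of_nonneg_left h2 (by linarith)
    have h5 : K' * (1 / K' * Real.sqrt y) = Real.sqrt y := by
      field_simp
    linarith
  have hev2 := (Real.tendsto_log_atTop.comp tendsto_natCast_atTop_atTop).eventually hev
  rw [Filter.eventually_atTop] at hev2
  obtain ⟨n1, hn1⟩ := hev2
  refine ⟨max n1 ⌈Y0⌉₊, fun n hn => ?_⟩
  obtain ⟨f1, f2, f3⟩ := hn1 n ((le_max_left _ _).trans hn)
  simp only [Function.comp] at f1 f2 f3
  have hY : Y0 ≤ (n : ℝ) := (Nat.le_ceil Y0).trans (by exact_mod_cast (le_max_right _ _).trans hn)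
  obtain ⟨Q, q1, q2, q3⟩ := hY0 n hY
  refine ⟨Q, ?_, q3⟩
  set L := Real.log n with hL
  have hL0 : 0 < L := by linarith
  have hQ0 : (0 : ℝ) < Q := (Real.rpow_pos_of_pos hL0 K').trans_le q1
  have hQ1 : K' * Real.log L ≤ Real.log Q := by
    have := Real.log_le_log (Real.rpow_pos_of_pos hL0 K') q1
    rwa [Real.log_rpow hL0] at this
  have hQ2 : Real.log Q ≤ Real.sqrt L := by
    have := Real.log_le_log hQ0 q2
    rwa [Real.log_exp] at this
  have hl0 : 0 ≤ Real.log L := by linarith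
  have hlQ0 : 0 ≤ Real.log Q := by nlinarith
  refine ⟨by linarith, ?_, ?_⟩
  · exact (mul_le_mul_of_nonneg_right hKK hl0).trans hQ1
  · calc K * (Real.log Q * Real.log L) ≤ K' * (Real.log Q * Real.log L) :=
          mul_le_mul_of_nonneg_right hKK (by positivity)
      _ = Real.log Q * (K' * Real.log L) := by ring
      _ ≤ Real.sqrt L * Real.sqrt L :=
          mul_le_mul hQ2 f2 (by positivity) (Real.sqrt_nonneg _)
      _ = L := Real.mul_self_sqrt hL0.le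

/-- At a good level: representations `2 x = p + q` by primes `p, q ≡ 3 (mod 4)`. -/
theorem gold_good (c : ℝ) (hc : 0 < c) : ∃ K : ℝ, 1 ≤ K ∧ ∀ n Q : ℕ, Reg K Q n →
    Good c Q → ∃ B : Finset ℕ, (B.card : ℝ) ≤ n * (Q : ℝ) ^ (-(1 / 20) : ℝ) ∧
      ∀ x ∈ Icc 1 n, x ∉ B → n < 2 * x → x % 2 = 1 →
        (n : ℝ) ≤ gdeg n 4 x (ycl x) * (1024 * (Real.log n) ^ 2) := by
  classical
  obtain ⟨K1, C, hK1, hC, hxc⟩ := x_gold
  obtain ⟨K2, hK2, hst⟩ := str_good c hc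
  obtain ⟨K0, hK0, hsh⟩ := reg_shift
  obtain ⟨K3, hK3, hreg⟩ := reg_log_le 0 0 1 one_pos
  refine ⟨K1 + 2 * K2 + K0 + 240 * C + 1000, by linarith, ?_⟩
  intro n Q hR hG
  have hKpos : (0 : ℝ) ≤ K1 + 2 * K2 + K0 + 240 * C + 1000 := by linarith
  have hR1 : Reg K1 Q n := hR.mono hKpos (by linarith)
  have hR2 : Reg (2 * K2 + K0) Q n := hR.mono hKpos (by linarith)
  have hn100 : (100 : ℝ) ≤ n := by
    have := hR.X_ge (by linarith : 0 < K1 + 2 * K2 + K0 + 240 * C + 1000)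
    linarith
  have hn8 : 100 ≤ n := by exact_mod_cast hn100
  have hL100 : 100 ≤ Real.log n := by
    have h1 := hR.logX_ge (by linarith : 0 < K1 + 2 * K2 + K0 + 240 * C + 1000)
    have h2 := Real.add_one_le_exp (K1 + 2 * K2 + K0 + 240 * C + 1000)
    linarith
  have hX := DG_X n 4 (by norm_num) (by omega)
  have hR3 : Reg K2 Q (3 * n / (8 * 4) * 4) := hsh K2 (by linarith) Q n _ hR2 hX.1 hX.2
  have hS0 := hst Q _ hR3 hG
  have hS : Str Q (3 * n / (8 * 4) * 4) 4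
      ((Real.log ((3 * n / (8 * 4) * 4 : ℕ) : ℝ)) ^ (-20 : ℝ)) 1 (fun _ => 0) := by
    refine ⟨by norm_num, hS0.tau0, hS0.be, hS0.be1, hS0.chi1, fun m k => rfl,
      fun m h1 h2 => ?_⟩
    have h3 := hS0.main m h1 h2
    have h4 : Pool.Agent.Lib.H68T.Mod Q 4 0 1 m = Pool.Agent.Lib.H68T.Mod Q 1 0 1 m := by
      unfold Pool.Agent.Lib.H68T.Mod
      ring
    rw [h4]
    exact h3
  have hlogQ : 240 * C ≤ Real.log Q := by
    have := hR.logQ_ge (by linarith)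
    linarith
  have hlogQ2 : 1000 ≤ Real.log Q := by
    have := hR.logQ_ge (by linarith)
    linarith
  have hQpos : (0 : ℝ) < Q := by
    have := hR1.Q_pos hK1
    exact_mod_cast this
  have hQ4 : 4 ^ 100 ≤ Q := by
    have h1 : ((4 : ℝ) ^ 100) ≤ Q := by
      rw [← Real.log_le_log_iff (by positivity) hQpos, Real.log_pow]
      have h2 : Real.log 4 ≤ 4 := by
        have := Real.log_le_sub_one_of_pos (show (0 : ℝ) < 4 by norm_num)
        linarith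
      push_cast
      linarith
    exact_mod_cast h1
  obtain ⟨B, hB, hBx⟩ := hxc n Q 4 _ 1 (fun _ => 0) hR1 hS hQ4
  obtain ⟨hq20, hq8⟩ := DG_Q C hC Q hlogQ
  -- the error `τ`
  have htau : (Real.log ((3 * n / (8 * 4) * 4 : ℕ) : ℝ)) ^ (-20 : ℝ) * (Real.log n) ^ 10 ≤
      1 / 12 := by
    set X := 3 * n / (8 * 4) * 4 with hXdef
    have hX0 : (0 : ℝ) < X := by
      have : 0 < X := by omega
      exact_mod_cast this
    have hlX : Real.log n / 2 ≤ Real.log X := by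
      have h4 : (n : ℝ) ≤ 4 * X := by exact_mod_cast hX.1
      have h5 := Real.log_le_log (by linarith) h4
      rw [Real.log_mul (by norm_num) hX0.ne'] at h5
      have h6 : Real.log 4 ≤ 4 := by
        have := Real.log_le_sub_one_of_pos (show (0 : ℝ) < 4 by norm_num)
        linarith
      linarith
    set L := Real.log n with hLdef
    have hL0 : 0 < L := by linarith
    have h1 : (Real.log X) ^ (-20 : ℝ) ≤ (L / 2) ^ (-20 : ℝ) :=
      Real.rpow_le_rpow_of_nonpos (by linarith) hlX (by norm_num)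
    have h2 : (L / 2) ^ (-20 : ℝ) * L ^ 10 = 2 ^ 20 / L ^ 10 := by
      have h3 : (L / 2) ^ (-20 : ℝ) = ((L / 2) ^ 20)⁻¹ := by
        rw [Real.rpow_neg (by linarith)]
        norm_cast
      rw [h3]
      field_simp
    calc (Real.log X) ^ (-20 : ℝ) * L ^ 10 ≤ (L / 2) ^ (-20 : ℝ) * L ^ 10 :=
          mul_le_mul_of_nonneg_right h1 (by positivity)
      _ = 2 ^ 20 / L ^ 10 := h2
      _ ≤ 2 ^ 20 / 100 ^ 10 := by
          apply div_le_div_of_nonneg_left (by norm_num) (by norm_num)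
          exact pow_le_pow_left₀ (by norm_num) hL100 10
      _ ≤ 1 / 12 := by norm_num
  refine ⟨B, hB, ?_⟩
  intro x hx hxB h2x hx2
  have h1 := hBx x hx hxB h2x (ycl x) (ycl_compat hx2) 1 zero_le_one (fun m m' _ _ => by simp)
  have hgp1 := one_le_Gp 4 (2 * (x : ℤ))
  obtain ⟨hl0, hl2⟩ := DG_log n (by omega)
  have hd0 : (0 : ℝ) ≤ gdeg n 4 x (ycl x) := Nat.cast_nonneg _
  have htot : Nat.totient 4 = 2 := by decide
  rw [htot] at h1
  have hbr : (1 : ℝ) ≤ (((4 : ℕ) : ℝ) / ((2 : ℕ) : ℝ)) ^ 2 *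
      (1 * (1 / 2 * Gp 4 (2 * (x : ℤ))) - C * (Q : ℝ) ^ (-(1 / 8) : ℝ)) -
        (Real.log ((3 * n / (8 * 4) * 4 : ℕ) : ℝ)) ^ (-20 : ℝ) * (Real.log n) ^ 10 -
        C * (Q : ℝ) ^ (-(1 / 20) : ℝ) := by
    norm_num at htau ⊢
    linarith
  have h3 : (n : ℝ) / (64 * ((4 : ℕ) : ℝ)) ≤ gdeg n 4 x (ycl x) * (4 * (Real.log n) ^ 2) := by
    calc (n : ℝ) / (64 * ((4 : ℕ) : ℝ)) = 1 * ((n : ℝ) / (64 * ((4 : ℕ) : ℝ))) := by ring
      _ ≤ _ := mul_le_mul_of_nonneg_right hbr (by positivity)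
      _ ≤ gdeg n 4 x (ycl x) * (Real.log (2 * n)) ^ 2 := h1
      _ ≤ _ := mul_le_mul_of_nonneg_left hl2 hd0
  have h4 : (n : ℝ) / (64 * ((4 : ℕ) : ℝ)) = n / 256 := by norm_num
  rw [h4] at h3
  linarith

/-- For every `A` and all large `n`: outside a set of at most `n / (log n)^A` elements, every odd
`x ∈ (n/2, n]` has at least `n / (1024 (log n)^2)` representations. -/
theorem gold (A : ℝ) : ∃ n0 : ℕ, ∀ n : ℕ, n0 ≤ n →
    2 ≤ Real.log n ∧ ∃ B : Finset ℕ, (B.card : ℝ) * (Real.log n) ^ A ≤ n ∧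
      ∀ x ∈ Icc 1 n, x ∉ B → n < 2 * x → x % 2 = 1 →
        (n : ℝ) ≤ gdeg n 4 x (ycl x) * (1024 * (Real.log n) ^ 2) := by
  obtain ⟨c, hc, hlev⟩ := levels
  obtain ⟨K1, hK1, hg⟩ := gold_good c hc
  obtain ⟨K2, hK2, hr⟩ := reg_log_le 1 A (1 / 20) (by norm_num)
  obtain ⟨n0, hn0⟩ := hlev (K1 + K2 + 2)
  refine ⟨n0, fun n hn => ?_⟩
  obtain ⟨Q, hR, hG⟩ := hn0 n hn
  have hKpos : (0 : ℝ) ≤ K1 + K2 + 2 := by linarith
  have hR1 : Reg K1 Q n := hR.mono hKpos (by linarith)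
  have hR2 : Reg K2 Q n := hR.mono hKpos (by linarith)
  have hL2 : 2 ≤ Real.log n := by
    have h1 := hR.logX_ge (by linarith : 0 < K1 + K2 + 2)
    have h2 := Real.add_one_le_exp (K1 + K2 + 2)
    linarith
  obtain ⟨B, hB, hx⟩ := hg n Q hR1 hG
  refine ⟨hL2, B, ?_, hx⟩
  have h1 := hr Q n hR2
  rw [one_mul] at h1
  have hQpos : (0 : ℝ) < Q := by
    have := hR1.Q_pos hK1
    exact_mod_cast this
  have h2 : (Q : ℝ) ^ (-(1 / 20) : ℝ) * (Q : ℝ) ^ (1 / 20 : ℝ) = 1 := by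
    rw [← Real.rpow_add hQpos]
    norm_num
  have h3 : 0 ≤ (Real.log n) ^ A := Real.rpow_nonneg (by linarith) _
  have h4 : (0 : ℝ) ≤ n * (Q : ℝ) ^ (-(1 / 20) : ℝ) := by positivity
  calc (B.card : ℝ) * (Real.log n) ^ A ≤ (n * (Q : ℝ) ^ (-(1 / 20) : ℝ)) * (Real.log n) ^ A :=
        mul_le_mul_of_nonneg_right hB h3
    _ ≤ (n * (Q : ℝ) ^ (-(1 / 20) : ℝ)) * (Q : ℝ) ^ (1 / 20 : ℝ) :=
        mul_le_mul_of_nonneg_left h1 h4
    _ = n := by rw [mul_assoc, h2, mul_one]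

/-- `2 x` is a sum of two primes congruent to `3` modulo `4`. -/
def TwoP (x : ℕ) : Prop := ∃ p q : ℕ, p.Prime ∧ q.Prime ∧ p % 4 = 3 ∧ q % 4 = 3 ∧ p + q = 2 * x

theorem gadj_twoP {x Y : ℕ} (hx : x % 2 = 1) (h : gadj x Y) (hY : Y % 4 = ycl x) :
    (x + Y).Prime ∧ (x - Y).Prime ∧ (x + Y) % 4 = 3 ∧ (x - Y) % 4 = 3 ∧ Y < x := by
  obtain ⟨h1, h2, h3⟩ := h
  refine ⟨h2, h3, ?_, ?_, h1⟩
  · rcases ycl_or hx with ⟨h4, h5⟩ | ⟨h4, h5⟩ <;> rw [h5] at hY <;> omega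
  · rcases ycl_or hx with ⟨h4, h5⟩ | ⟨h4, h5⟩ <;> rw [h5] at hY <;> omega

theorem twoP_of_gdeg {n x : ℕ} (hx : x % 2 = 1) (h : 0 < gdeg n 4 x (ycl x)) : TwoP x := by
  classical
  unfold gdeg at h
  obtain ⟨Y, hY⟩ := card_pos.1 h
  rw [mem_filter] at hY
  obtain ⟨h1, h2, h3, h4, h5⟩ := gadj_twoP hx hY.2.1 hY.2.2
  exact ⟨x + Y, x - Y, h1, h2, h3, h4, by omega⟩

end Pool.Agent.CubeBal
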