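import Pool.Agent.Lib.H18E.XC

/-!
# Sums of two primes in a class: the analogue of `x_class` (project H18E) for sums

`gdeg n r x y0` is the number of `Y ≤ n`, `Y < x`, `Y ≡ y0` modulo `r`, such that `x + Y` and `x - Y`
are primes, i.e. of certain representations of `2 x` as a sum of two primes. The proof is that of
`x_class`.
-/

open Finset Pool.Agent.Lib.H68T Pool.Agent.Lib.H18E

namespace Pool.Agent.CubeBal

/-- `2 x = (x + y) + (x - y)` is a sum of two primes. -/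
def gadj (x y : ℕ) : Prop := y < x ∧ (x + y).Prime ∧ (x - y).Prime

open Classical in
/-- The number of representations of `2 x` with `Y` in the class `y0` modulo `r`. -/
noncomputable def gdeg (n r x y0 : ℕ) : ℕ :=
  ((Icc 1 n).filter (fun Y => gadj x Y ∧ Y % r = y0)).card

/-- the sum over `c` is at most the weighted number of representations `2 x = (x + Y) + (x - Y)`
by primes with `Y` in the class -/
theorem xc_gdeg {n r x y0 j : ℕ} (hr : 0 < r) (hn : 100 * r ≤ n) (hx : x ∈ Icc 1 n)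
    (hy0 : y0 < r) (h2x : n < 2 * x) (hj : j ∈ xcJ false n r (n / (32 * r))) :
    ∑ c ∈ range (n / (32 * r)), lp ((xcu r x y0 + r * (xcs r y0 x j + c) : ℕ) : ℤ) *
      lp ((xcv false r x y0 + r * ix (n / (32 * r)) false (xct false (n / (32 * r)) r y0 x j) c : ℕ) : ℤ) ≤
      gdeg n r x y0 * (Real.log (2 * n)) ^ 2 := by
  classical
  rw [mem_Icc] at hx
  have hσ : (false = true) ↔ 2 * x ≤ n := by
    constructor
    · intro h
      simp at h
    · intro h
      omega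
  obtain ⟨g1, g2, g3, g4⟩ := xc_geom (σ := false) hr hn hx.1 hx.2 hy0 hσ hj
  set H := n / (32 * r) with hH
  have hr8 : 0 < 8 * r := by omega
  have hM3 : 3 ≤ r * (3 * n / (8 * r)) := by
    have h1 : 3 * n < (3 * n / (8 * r)) * (8 * r) + 8 * r := Nat.lt_div_mul_add hr8
    nlinarith
  rw [mem_Ico] at g1 g2
  -- the set of the c with a nonzero term
  set Cs := (range H).filter (fun c => gadj x (y0 + r * (j + c)))
    with hCs
  have hlog0 : 0 ≤ Real.log (2 * n) := Real.log_nonneg (by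
    have : (1 : ℝ) ≤ n := by exact_mod_cast hx.1.trans hx.2
    linarith)
  have hlp : ∀ k : ℕ, k ≤ 2 * n → lp (k : ℤ) ≤ Real.log (2 * n) := by
    intro k hk
    unfold Pool.Agent.Lib.H68T.lp
    split_ifs with h
    · have hk0 : 0 < k := by
        rw [Int.toNat_natCast] at h
        exact h.pos
      apply Real.log_le_log
      · exact_mod_cast hk0
      · exact_mod_cast hk
    · exact hlog0
  have hlp0 : ∀ k : ℕ, 0 ≤ lp (k : ℤ) := by
    intro k
    unfold Pool.Agent.Lib.H68T.lp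
    split_ifs with h
    · rw [Int.toNat_natCast] at h
      exact Real.log_nonneg (by exact_mod_cast h.one_lt.le)
    · exact le_rfl
  have hlpne : ∀ k : ℕ, lp (k : ℤ) ≠ 0 → k.Prime := by
    intro k hk
    unfold Pool.Agent.Lib.H68T.lp at hk
    by_contra h
    rw [if_neg (by rwa [Int.toNat_natCast])] at hk
    exact hk rfl
  have hterm : ∀ c ∈ range H, lp ((xcu r x y0 + r * (xcs r y0 x j + c) : ℕ) : ℤ) *
      lp ((xcv false r x y0 + r * ix H false (xct false H r y0 x j) c : ℕ) : ℤ) ≤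
      if gadj x (y0 + r * (j + c)) then (Real.log (2 * n)) ^ 2
        else 0 := by
    intro c hc
    rw [mem_range] at hc
    obtain ⟨y1, y2⟩ := g4 c hc
    have e1 := xc_sum (r := r) (x := x) (y0 := y0) (j := j) (c := c)
    have e2 := xc_diff (σ := false) (x := x) (y0 := y0) (j := j) (c := c) hr hc g3
    set y := y0 + r * (j + c) with hy
    set m := xcu r x y0 + r * (xcs r y0 x j + c) with hm
    set m' := xcv false r x y0 + r * ix H false (xct false H r y0 x j) c with hm'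
    have hm2 : m ≤ 2 * n := by omega
    simp only [Bool.false_eq_true, if_false] at e2
    have hm2' : m' ≤ 2 * n := by omega
    have hbig : 3 ≤ m := by
      have : r * (3 * n / (8 * r)) ≤ r * (xcs r y0 x j + c) := Nat.mul_le_mul_left _ (by omega)
      omega
    have hbig' : 3 ≤ m' := by
      have h1 : 3 * n / (8 * r) ≤ ix H false (xct false H r y0 x j) c := by
        unfold ix
        simp
        omega
      have : r * (3 * n / (8 * r)) ≤ r * ix H false (xct false H r y0 x j) c := Nat.mul_le_mul_left _ h1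
      omega
    by_cases h0 : lp (m : ℤ) = 0
    · rw [h0, zero_mul]
      split_ifs <;> positivity
    by_cases h0' : lp (m' : ℤ) = 0
    · rw [h0', mul_zero]
      split_ifs <;> positivity
    have p1 := hlpne m h0
    have p2 := hlpne m' h0'
    rw [if_pos]
    · rw [pow_two]
      exact mul_le_mul (hlp m hm2) (hlp m' hm2') (hlp0 m') hlog0
    · refine ⟨by omega, ?_, ?_⟩
      · rw [← e1]; exact p1
      · have e3 : x - y = m' := by omega
        rw [e3]; exact p2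
  refine (sum_le_sum hterm).trans ?_
  rw [← sum_filter, sum_const, nsmul_eq_mul]
  apply mul_le_mul_of_nonneg_right _ (by positivity)
  have : ((range H).filter (fun c => gadj x (y0 + r * (j + c)))).card ≤
      gdeg n r x y0 := by
    unfold gdeg
    apply card_le_card_of_injOn (fun c => y0 + r * (j + c))
    · intro c hc
      rw [mem_coe, mem_filter, mem_range] at hc
      rw [mem_coe, mem_filter, mem_Icc]
      refine ⟨g4 c hc.1, hc.2, ?_⟩
      rw [Nat.add_mul_mod_self_left]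
      exact Nat.mod_eq_of_lt hy0
    · intro c _ c' _ h
      simp only at h
      have : r * (j + c) = r * (j + c') := by omega
      have := Nat.eq_of_mul_eq_mul_left hr this
      omega
  exact_mod_cast this

/-- The lower bound for the number of representations of `2 x` as a sum of two primes `x + Y`,
`x - Y` with `Y` in a given class, for all `x ∈ (n/2, n]` outside a small exceptional set. -/
theorem x_gold : ∃ K C : ℝ, 1 ≤ K ∧ 1 ≤ C ∧ ∀ (n Q r : ℕ) (τ β : ℝ) (χ : ℤ → ℝ),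
    Reg K Q n → Str Q (3 * n / (8 * r) * r) r τ β χ → r ^ 100 ≤ Q →
    ∃ B : Finset ℕ, (B.card : ℝ) ≤ n * (Q : ℝ) ^ (-(1 / 20) : ℝ) ∧
      ∀ x ∈ Icc 1 n, x ∉ B → n < 2 * x → ∀ y0 ∈ compat r x, ∀ κ : ℝ, 0 ≤ κ →
        (∀ m m' : ℝ, n / 4 ≤ m → n / 4 ≤ m' →
          κ ≤ (1 - χ ((x : ℤ) + y0) * m ^ (β - 1)) *
            (1 - χ (if 2 * x ≤ n then (y0 : ℤ) - x else (x : ℤ) - y0) * m' ^ (β - 1))) →
        (((r : ℝ) / Nat.totient r) ^ 2 *
            (κ * (1 / 2 * Gp r (2 * (x : ℤ))) - C * (Q : ℝ) ^ (-(1 / 8) : ℝ)) -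
          τ * (Real.log n) ^ 10 - C * (Q : ℝ) ^ (-(1 / 20) : ℝ)) * (n / (64 * r)) ≤
        gdeg n r x y0 * (Real.log (2 * n)) ^ 2 := by
  classical
  obtain ⟨K1, C1, hK1, hC1, hcp⟩ := class_pair
  obtain ⟨Cr, hCr, hrk⟩ := rk_mean
  obtain ⟨K0, hK0, hsh⟩ := reg_shift
  obtain ⟨K2, hK2, hreg2⟩ := reg_log_le 96 0 (3 / 100) (by norm_num)
  obtain ⟨K3, hK3, hreg3⟩ := reg_log_le (2 * Cr) 0 (3 / 40) (by norm_num)
  refine ⟨2 * K1 + K0 + K2 + K3 + 100, C1 + 64, by linarith, by linarith, ?_⟩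
  intro n Q r τ β χ hR hS hrQ
  have hKpos : (0 : ℝ) ≤ 2 * K1 + K0 + K2 + K3 + 100 := by linarith
  have hR1 : Reg (2 * K1 + K0) Q n := hR.mono hKpos (by linarith)
  have hR2 : Reg K2 Q n := hR.mono hKpos (by linarith)
  have hR3 : Reg K3 Q n := hR.mono hKpos (by linarith)
  have hR100 : Reg 100 Q n := hR.mono hKpos (by linarith)
  have hr := hS.r0
  have hQ100 : (100 : ℝ) ≤ Q := hR100.Q_ge (by norm_num)
  have hQ0 : (0 : ℝ) < Q := by linarith
  have hQ1 : (1 : ℝ) ≤ Q := by linarith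
  have hlogQ : 0 < Real.log Q := Real.log_pos (by linarith)
  have hn0 : 0 < n := hR100.X_pos (by norm_num)
  have hn0R : (0 : ℝ) < n := by exact_mod_cast hn0
  have hQn : (Q : ℝ) ^ 2 ≤ n := by
    have h1 := hR100.logQ_le (by norm_num)
    have h2 : Real.log ((Q : ℝ) ^ 2) ≤ Real.log n := by
      rw [Real.log_pow]
      push_cast
      nlinarith
    exact (Real.log_le_log_iff (by positivity) hn0R).mp h2
  have hrQ' : r ≤ Q := (Nat.le_self_pow (by norm_num) r).trans hrQ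
  have hn100 : 100 * r ≤ n := by
    have h1 : (100 : ℝ) * r ≤ n := by
      have h2 : (r : ℝ) ≤ Q := by exact_mod_cast hrQ'
      calc (100 : ℝ) * r ≤ Q * Q := mul_le_mul hQ100 h2 (Nat.cast_nonneg _) hQ0.le
        _ = (Q : ℝ) ^ 2 := by ring
        _ ≤ n := hQn
    exact_mod_cast h1
  set M := 3 * n / (8 * r) with hM
  set H := n / (32 * r) with hH
  have hr8 : 0 < 8 * r := by omega
  have hr32 : 0 < 32 * r := by omega
  have m1 : 8 * (r * M) ≤ 3 * n := by
    have := Nat.div_mul_le_self (3 * n) (8 * r)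
    rw [← hM] at this
    nlinarith
  have m2 : 3 * n < 8 * (r * M) + 8 * r := by
    have := Nat.lt_div_mul_add hr8 (a := 3 * n)
    rw [← hM] at this
    nlinarith
  have k1 : 32 * (r * H) ≤ n := by
    have := Nat.div_mul_le_self n (32 * r)
    rw [← hH] at this
    nlinarith
  have k2 : n < 32 * (r * H) + 32 * r := by
    have := Nat.lt_div_mul_add hr32 (a := n)
    rw [← hH] at this
    nlinarith
  have hH1 : 1 ≤ H := by
    rw [hH, Nat.le_div_iff_mul_le hr32]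
    omega
  have hHM : H ≤ M := by
    have : r * H ≤ r * M := by omega
    exact Nat.le_of_mul_le_mul_left this hr
  have hMH : M ≤ 64 * H := by
    have : r * M ≤ r * (64 * H) := by nlinarith
    exact Nat.le_of_mul_le_mul_left this hr
  have hX4 : n ≤ 4 * (M * r) := by nlinarith
  have hXn : M * r ≤ n := by nlinarith
  have hRX : Reg K1 Q (M * r) := hsh K1 (by linarith) Q n (M * r) hR1 hX4 hXn
  -- real versions
  have hrR : (0 : ℝ) < r := by exact_mod_cast hr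
  have hr1R : (1 : ℝ) ≤ r := by exact_mod_cast hr
  have hHR : (1 : ℝ) ≤ H := by exact_mod_cast hH1
  have hHn : (n : ℝ) / (64 * r) ≤ H := by
    rw [div_le_iff₀ (by positivity)]
    have h1 : (n : ℝ) < 32 * (r * H) + 32 * r := by exact_mod_cast k2
    have h2 : (r : ℝ) ≤ r * H := by nlinarith
    nlinarith
  have hMn : (M : ℝ) * (8 * r) ≤ 3 * n := by
    have : (8 : ℝ) * (r * M) ≤ 3 * n := by exact_mod_cast m1
    linarith
  have hMHR : (M : ℝ) ≤ 64 * H := by exact_mod_cast hMH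
  -- the choice of the functions e
  set θ : ℝ := (Q : ℝ) ^ (-(1 / 20) : ℝ) with hθ
  have hθ0 : 0 < θ := Real.rpow_pos_of_pos hQ0 _
  set V : ℝ := (M : ℝ) ^ 2 * (Q : ℝ) ^ (-(1 / 5) : ℝ) with hV
  have hE : ∀ (σ : Bool) (u v : ℕ), ∃ e : ℕ → ℕ → ℝ, u < 2 * r → v < 2 * r →
      Nat.Coprime u r → Nat.Coprime v r → (∀ s t, 0 ≤ e s t) ∧
      ∑ s ∈ Ico M (4 * M - H), ∑ t ∈ Ico M (4 * M - H), (e s t) ^ 2 ≤ V ∧
      ∀ s ∈ Ico M (4 * M - H), ∀ t ∈ Ico M (4 * M - H), dd H r σ u v s t ≠ 0 →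
        (2 ∣ r ∨ (2 : ℤ) ∣ dd H r σ u v s t) →
        ((r : ℝ) / Nat.totient r) ^ 2 *
          ((∑ c ∈ range H, (1 - χ u * ((u + r * (s + c) : ℕ) : ℝ) ^ (β - 1)) *
              (1 - χ v * ((v + r * ix H σ t c : ℕ) : ℝ) ^ (β - 1))) *
                (1 / 2 * Gp r (dd H r σ u v s t)) -
            C1 * H * (Q : ℝ) ^ (-(1 / 4) : ℝ) * Rk (dd H r σ u v s t)) -
          H * (τ * (Real.log (M * r : ℕ)) ^ 10) - M * e s t ≤
        ∑ c ∈ range H, lp ((u + r * (s + c) : ℕ) : ℤ) * lp ((v + r * ix H σ t c : ℕ) : ℤ) := by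
    intro σ u v
    by_cases h : u < 2 * r ∧ v < 2 * r ∧ Nat.Coprime u r ∧ Nat.Coprime v r
    · obtain ⟨h1, h2, h3, h4⟩ := h
      obtain ⟨e, he⟩ := hcp Q M H r τ β χ hRX hS hrQ hHM hMH hH1 σ u v h1 h2 h3 h4
      exact ⟨e, fun _ _ _ _ => he⟩
    · exact ⟨fun _ _ => 0, fun h1 h2 h3 h4 => absurd ⟨h1, h2, h3, h4⟩ h⟩
  choose E hE using hE
  -- the exceptional set
  set B1 := (Icc 1 n).filter (fun x : ℕ => (Q : ℝ) ^ (1 / 8 : ℝ) < Rk (2 * (x : ℤ))) with hB1
  set P : Bool × ℕ × ℕ × ℕ → Finset ℕ := fun q =>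
    if Nat.Coprime q.2.2.1 r ∧ Nat.Coprime q.2.2.2 r then
      xcP q.1 n r q.2.1 q.2.2.1 q.2.2.2 (E q.1 q.2.2.1 q.2.2.2) θ else ∅ with hP
  set I4 : Finset (Bool × ℕ × ℕ × ℕ) := univ ×ˢ (range r ×ˢ (range r ×ˢ range r)) with hI4
  refine ⟨B1 ∪ I4.biUnion P, ?_, ?_⟩
  · -- counting
    have c1 : (B1.card : ℝ) ≤ 1 / 2 * (n * (Q : ℝ) ^ (-(1 / 20) : ℝ)) := by
      have h1 : (B1.card : ℝ) * (Q : ℝ) ^ (1 / 8 : ℝ) ≤ Cr * n := by
        refine le_trans ?_ (hrk n)
        calc (B1.card : ℝ) * (Q : ℝ) ^ (1 / 8 : ℝ) = ∑ x ∈ B1, (Q : ℝ) ^ (1 / 8 : ℝ) := by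
              rw [sum_const, nsmul_eq_mul]
          _ ≤ ∑ x ∈ B1, Rk (2 * (x : ℤ)) := sum_le_sum fun x hx => (mem_filter.mp hx).2.le
          _ ≤ ∑ x ∈ Icc 1 n, Rk (2 * (x : ℤ)) :=
              sum_le_sum_of_subset_of_nonneg (filter_subset _ _) fun x _ _ =>
                zero_le_one.trans (one_le_Rk _)
      have h2 := hreg3 Q n hR3
      rw [Real.rpow_zero, mul_one] at h2
      have h3 : (Q : ℝ) ^ (1 / 8 : ℝ) * (Q : ℝ) ^ (-(1 / 20) : ℝ) = (Q : ℝ) ^ (3 / 40 : ℝ) := by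
        rw [← Real.rpow_add hQ0]
        norm_num
      have h4 : 0 < (Q : ℝ) ^ (1 / 8 : ℝ) := Real.rpow_pos_of_pos hQ0 _
      rw [← mul_le_mul_iff_left₀ h4]
      calc (B1.card : ℝ) * (Q : ℝ) ^ (1 / 8 : ℝ) ≤ Cr * n := h1
        _ ≤ (1 / 2 * (Q : ℝ) ^ (3 / 40 : ℝ)) * n := by
            apply mul_le_mul_of_nonneg_right _ hn0R.le
            linarith
        _ = 1 / 2 * (n * (Q : ℝ) ^ (-(1 / 20) : ℝ)) * (Q : ℝ) ^ (1 / 8 : ℝ) := by
            rw [← h3]; ring
    have c2 : ∀ q ∈ I4, ((P q).card : ℝ) ≤ 24 * (n / r) * (Q : ℝ) ^ (-(1 / 10) : ℝ) := by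
      intro q hq
      have hnn : 0 ≤ 24 * ((n : ℝ) / r) * (Q : ℝ) ^ (-(1 / 10) : ℝ) := by positivity
      rw [hI4, mem_product, mem_product, mem_product, mem_range, mem_range, mem_range] at hq
      obtain ⟨-, q1, q2, q3⟩ := hq
      simp only [hP]
      split_ifs with hc
      · obtain ⟨-, e2, -⟩ := hE q.1 q.2.2.1 q.2.2.2 (by omega) (by omega) hc.1 hc.2
        have h1 := xc_bad (σ := q.1) (u := q.2.2.1) (v := q.2.2.2) hr hn100 q1
          (E q.1 q.2.2.1 q.2.2.2) V θ hθ0 e2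
        set p := ((xcP q.1 n r q.2.1 q.2.2.1 q.2.2.2 (E q.1 q.2.2.1 q.2.2.2) θ).card : ℝ) with hp
        have h2 : θ ^ 2 = (Q : ℝ) ^ (-(1 / 10) : ℝ) := by
          rw [hθ, ← Real.rpow_natCast, ← Real.rpow_mul hQ0.le]
          norm_num
        have h3 : (Q : ℝ) ^ (-(1 / 5) : ℝ) =
            (Q : ℝ) ^ (-(1 / 10) : ℝ) * (Q : ℝ) ^ (-(1 / 10) : ℝ) := by
          rw [← Real.rpow_add hQ0]
          norm_num
        have h4 : 0 < (Q : ℝ) ^ (-(1 / 10) : ℝ) := Real.rpow_pos_of_pos hQ0 _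
        rw [h2, hV, h3, ← mul_assoc, mul_le_mul_iff_left₀ h4] at h1
        -- p * H ≤ M ^ 2 * Q ^ (-1/10)
        have h5 : (M : ℝ) ^ 2 ≤ 24 * (n / r) * H := by
          have h6 : (M : ℝ) ≤ 3 * n / (8 * r) := by
            rw [le_div_iff₀ (by positivity)]
            exact hMn
          calc (M : ℝ) ^ 2 = M * M := by ring
            _ ≤ (3 * n / (8 * r)) * (64 * H) :=
                mul_le_mul h6 hMHR (Nat.cast_nonneg _) (by positivity)
            _ = 24 * (n / r) * H := by field_simp; ring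
        have h7 : p * H ≤ (24 * (n / r) * (Q : ℝ) ^ (-(1 / 10) : ℝ)) * H := by
          calc p * H ≤ (M : ℝ) ^ 2 * (Q : ℝ) ^ (-(1 / 10) : ℝ) := h1
            _ ≤ (24 * (n / r) * H) * (Q : ℝ) ^ (-(1 / 10) : ℝ) :=
                mul_le_mul_of_nonneg_right h5 h4.le
            _ = _ := by ring
        exact le_of_mul_le_mul_right h7 (by linarith)
      · simpa using hnn
    have c3 : ((I4.biUnion P).card : ℝ) ≤ 1 / 2 * (n * (Q : ℝ) ^ (-(1 / 20) : ℝ)) := by
      have h1 : ((I4.biUnion P).card : ℝ) ≤ ∑ q ∈ I4, ((P q).card : ℝ) := by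
        exact_mod_cast card_biUnion_le
      have h2 : (I4.card : ℝ) = 2 * (r : ℝ) ^ 3 := by
        rw [hI4]
        simp only [card_product, card_univ, Fintype.card_bool, card_range]
        push_cast
        ring
      have h3 : (r : ℝ) ^ 2 ≤ (Q : ℝ) ^ (1 / 50 : ℝ) := by
        have h4 : ((r : ℝ) ^ 2) ^ (50 : ℕ) ≤ Q := by
          rw [← pow_mul]
          exact_mod_cast hrQ
        have h5 : (r : ℝ) ^ 2 = (((r : ℝ) ^ 2) ^ (50 : ℕ)) ^ (1 / 50 : ℝ) := by
          rw [← Real.rpow_natCast ((r : ℝ) ^ 2) 50, ← Real.rpow_mul (by positivity)]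
          norm_num
        rw [h5]
        exact Real.rpow_le_rpow (by positivity) h4 (by norm_num)
      have h6 := hreg2 Q n hR2
      rw [Real.rpow_zero, mul_one] at h6
      have h7 : (Q : ℝ) ^ (1 / 50 : ℝ) * (Q : ℝ) ^ (-(1 / 10) : ℝ) * (Q : ℝ) ^ (3 / 100 : ℝ) =
          (Q : ℝ) ^ (-(1 / 20) : ℝ) := by
        rw [← Real.rpow_add hQ0, ← Real.rpow_add hQ0]
        norm_num
      have h8 : 0 < (Q : ℝ) ^ (-(1 / 10) : ℝ) := Real.rpow_pos_of_pos hQ0 _
      calc ((I4.biUnion P).card : ℝ) ≤ ∑ q ∈ I4, ((P q).card : ℝ) := h1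
        _ ≤ ∑ q ∈ I4, 24 * (n / r) * (Q : ℝ) ^ (-(1 / 10) : ℝ) := sum_le_sum c2
        _ = 48 * (r : ℝ) ^ 2 * (n * (Q : ℝ) ^ (-(1 / 10) : ℝ)) := by
            rw [sum_const, nsmul_eq_mul, h2]
            field_simp
            ring
        _ ≤ 48 * (Q : ℝ) ^ (1 / 50 : ℝ) * (n * (Q : ℝ) ^ (-(1 / 10) : ℝ)) := by
            apply mul_le_mul_of_nonneg_right _ (by positivity)
            linarith
        _ = 48 * (n * ((Q : ℝ) ^ (1 / 50 : ℝ) * (Q : ℝ) ^ (-(1 / 10) : ℝ))) := by ring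
        _ ≤ (1 / 2 * (Q : ℝ) ^ (3 / 100 : ℝ)) *
              (n * ((Q : ℝ) ^ (1 / 50 : ℝ) * (Q : ℝ) ^ (-(1 / 10) : ℝ))) := by
            apply mul_le_mul_of_nonneg_right _ (by positivity)
            linarith
        _ = 1 / 2 * (n * (Q : ℝ) ^ (-(1 / 20) : ℝ)) := by
            rw [← h7]; ring
    have c4 : ((B1 ∪ I4.biUnion P).card : ℝ) ≤ B1.card + (I4.biUnion P).card := by
      exact_mod_cast card_union_le _ _
    linarith
  · -- the main estimate
    intro x hx hxB h2x y0 hy0 κ hκ0 hκ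
    rw [mem_union, not_or] at hxB
    obtain ⟨hxB1, hxB2⟩ := hxB
    have hx' := mem_Icc.mp hx
    unfold compat at hy0
    rw [mem_filter, mem_range] at hy0
    obtain ⟨hy0r, hcop1, hcop2⟩ := hy0
    have hRk : Rk (2 * (x : ℤ)) ≤ (Q : ℝ) ^ (1 / 8 : ℝ) := by
      by_contra h
      exact hxB1 (mem_filter.mpr ⟨hx, not_le.mp h⟩)
    obtain ⟨σ, hσf, hσ⟩ : ∃ σ : Bool, σ = false ∧ (σ = true ↔ 2 * x ≤ n) :=
      ⟨false, rfl, ⟨fun h => by simp at h, fun h => by omega⟩⟩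
    have hcu := xc_cop_u hcop1
    have hcv := xc_cop_v (σ := σ) hr hcop2
    have hult := xcu_lt (x := x) (y0 := y0) hr
    have hvlt := xcv_lt (σ := σ) (x := x) (y0 := y0) hr
    obtain ⟨e1, e2, e3⟩ := hE σ (xcu r x y0) (xcv σ r x y0) (by omega) (by omega) hcu hcv
    obtain ⟨j, hj, hje⟩ : ∃ j ∈ xcJ σ n r H,
        E σ (xcu r x y0) (xcv σ r x y0) (xcs r y0 x j) (xct σ H r y0 x j) ≤ θ := by
      by_contra hcon
      push Not at hcon
      apply hxB2
      rw [mem_biUnion]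
      refine ⟨(σ, y0, xcu r x y0, xcv σ r x y0), ?_, ?_⟩
      · rw [hI4, mem_product, mem_product, mem_product, mem_range, mem_range, mem_range]
        exact ⟨mem_univ _, hy0r, hult, hvlt⟩
      · simp only [hP]
        rw [if_pos ⟨hcu, hcv⟩]
        unfold xcP
        simp only [mem_filter]
        exact ⟨hx, hσ, trivial, trivial, hcon⟩
    obtain ⟨g1, g2, g3, g4⟩ := xc_geom hr hn100 hx'.1 hx'.2 hy0r hσ hj
    have hdd := xc_dd (σ := σ) hr hH1 g3
    have main := e3 (xcs r y0 x j) g1 (xct σ H r y0 x j) g2 (by rw [hdd]; omega)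
      (Or.inr (by rw [hdd]; exact Dvd.intro _ rfl))
    rw [hdd] at main
    have hcd : ∑ c ∈ range H, lp ((xcu r x y0 + r * (xcs r y0 x j + c) : ℕ) : ℤ) *
        lp ((xcv σ r x y0 + r * ix H σ (xct σ H r y0 x j) c : ℕ) : ℤ) ≤
        gdeg n r x y0 * (Real.log (2 * n)) ^ 2 := by
      subst hσf
      exact xc_gdeg hr hn100 hx hy0r h2x hj
    have hGp := one_le_Gp r (2 * (x : ℤ))
    -- the sum with κ
    have hχu : χ ((xcu r x y0 : ℕ) : ℤ) = χ ((x : ℤ) + y0) := by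
      have h1 := hS.per ((xcu r x y0 : ℕ) : ℤ) (((x + y0) / r : ℕ) : ℤ)
      rw [← h1]
      congr 1
      have h2 := Nat.mod_add_div (x + y0) r
      unfold xcu
      have h3 : ((((x + y0) % r + r * ((x + y0) / r) : ℕ)) : ℤ) = ((x + y0 : ℕ) : ℤ) := by
        exact_mod_cast h2
      push_cast at h3 ⊢
      linarith
    have hχv : χ ((xcv σ r x y0 : ℕ) : ℤ) =
        χ (if 2 * x ≤ n then (y0 : ℤ) - x else (x : ℤ) - y0) := by
      have h1 := hS.per ((xcv σ r x y0 : ℕ) : ℤ) (xcD σ x y0 / (r : ℤ))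
      rw [← h1]
      congr 1
      rw [xcv_eq hr, Int.emod_add_mul_ediv]
      unfold xcD
      cases σ with
      | true =>
        have h2 := hσ.mp rfl
        simp [h2]
      | false =>
        have h2 : ¬ 2 * x ≤ n := fun h => by simpa using hσ.mpr h
        simp [h2]
    have hMr : (n : ℝ) / 4 ≤ ((r * M : ℕ) : ℝ) := by
      have : (n : ℝ) ≤ 4 * ((M * r : ℕ) : ℝ) := by exact_mod_cast hX4
      rw [mul_comm r M]
      linarith
    have hsum : κ * H ≤ ∑ c ∈ range H,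
        (1 - χ (xcu r x y0 : ℕ) * ((xcu r x y0 + r * (xcs r y0 x j + c) : ℕ) : ℝ) ^ (β - 1)) *
          (1 - χ (xcv σ r x y0 : ℕ) *
            ((xcv σ r x y0 + r * ix H σ (xct σ H r y0 x j) c : ℕ) : ℝ) ^ (β - 1)) := by
      calc κ * H = ∑ c ∈ range H, κ := by rw [sum_const, card_range, nsmul_eq_mul, mul_comm]
        _ ≤ _ := by
          apply sum_le_sum
          intro c hc
          rw [hχu, hχv]
          rw [mem_Ico] at g1 g2
          apply hκ
          · refine hMr.trans ?_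
            have : r * M ≤ xcu r x y0 + r * (xcs r y0 x j + c) := by
              have : r * M ≤ r * (xcs r y0 x j + c) := Nat.mul_le_mul_left _ (by omega)
              omega
            exact_mod_cast this
          · refine hMr.trans ?_
            have h1 : M ≤ ix H σ (xct σ H r y0 x j) c := xc_ix g2.1
            have : r * M ≤ xcv σ r x y0 + r * ix H σ (xct σ H r y0 x j) c := by
              have : r * M ≤ r * ix H σ (xct σ H r y0 x j) c := Nat.mul_le_mul_left _ h1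
              omega
            exact_mod_cast this
    -- assembly
    set S0 := ∑ c ∈ range H,
        (1 - χ (xcu r x y0 : ℕ) * ((xcu r x y0 + r * (xcs r y0 x j + c) : ℕ) : ℝ) ^ (β - 1)) *
          (1 - χ (xcv σ r x y0 : ℕ) *
            ((xcv σ r x y0 + r * ix H σ (xct σ H r y0 x j) c : ℕ) : ℝ) ^ (β - 1)) with hS0
    set ρ2 := ((r : ℝ) / Nat.totient r) ^ 2 with hρ2
    have hρ0 : 0 ≤ ρ2 := sq_nonneg _
    set g := Gp r (2 * (x : ℤ)) with hg
    set Rx := Rk (2 * (x : ℤ)) with hRx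
    have hq8 : (Q : ℝ) ^ (-(1 / 4) : ℝ) * (Q : ℝ) ^ (1 / 8 : ℝ) = (Q : ℝ) ^ (-(1 / 8) : ℝ) := by
      rw [← Real.rpow_add hQ0]
      norm_num
    have hq4 : 0 ≤ (Q : ℝ) ^ (-(1 / 4) : ℝ) := (Real.rpow_pos_of_pos hQ0 _).le
    have hq80 : 0 ≤ (Q : ℝ) ^ (-(1 / 8) : ℝ) := (Real.rpow_pos_of_pos hQ0 _).le
    have a1 : C1 * H * (Q : ℝ) ^ (-(1 / 4) : ℝ) * Rx ≤ C1 * H * (Q : ℝ) ^ (-(1 / 8) : ℝ) := by
      calc C1 * H * (Q : ℝ) ^ (-(1 / 4) : ℝ) * Rx
          ≤ C1 * H * (Q : ℝ) ^ (-(1 / 4) : ℝ) * (Q : ℝ) ^ (1 / 8 : ℝ) :=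
            mul_le_mul_of_nonneg_left hRk (by positivity)
        _ = C1 * H * ((Q : ℝ) ^ (-(1 / 4) : ℝ) * (Q : ℝ) ^ (1 / 8 : ℝ)) := by ring
        _ = _ := by rw [hq8]
    have a2 : τ * (Real.log (M * r : ℕ)) ^ 10 ≤ τ * (Real.log n) ^ 10 := by
      apply mul_le_mul_of_nonneg_left _ hS.tau0
      apply pow_le_pow_left₀
      · apply Real.log_nonneg
        have : 1 ≤ M * r := by nlinarith
        exact_mod_cast this
      · apply Real.log_le_log
        · have : 0 < M * r := by nlinarith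
          exact_mod_cast this
        · exact_mod_cast hXn
    have a3 : (M : ℝ) * E σ (xcu r x y0) (xcv σ r x y0) (xcs r y0 x j) (xct σ H r y0 x j) ≤
        64 * H * θ := mul_le_mul hMHR hje (e1 _ _) (by positivity)
    have a4 : ρ2 * (κ * H * (1 / 2 * g) - C1 * H * (Q : ℝ) ^ (-(1 / 8) : ℝ)) ≤
        ρ2 * (S0 * (1 / 2 * g) - C1 * H * (Q : ℝ) ^ (-(1 / 4) : ℝ) * Rx) := by
      apply mul_le_mul_of_nonneg_left _ hρ0
      have : κ * H * (1 / 2 * g) ≤ S0 * (1 / 2 * g) :=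
        mul_le_mul_of_nonneg_right hsum (by linarith)
      linarith
    set T := ρ2 * (κ * (1 / 2 * g) - (C1 + 64) * (Q : ℝ) ^ (-(1 / 8) : ℝ)) -
          τ * (Real.log n) ^ 10 - (C1 + 64) * (Q : ℝ) ^ (-(1 / 20) : ℝ) with hT
    have a5 : T * H ≤ ∑ c ∈ range H, lp ((xcu r x y0 + r * (xcs r y0 x j + c) : ℕ) : ℤ) *
      lp ((xcv σ r x y0 + r * ix H σ (xct σ H r y0 x j) c : ℕ) : ℤ) := by
      refine le_trans ?_ main
      have b1 : (H : ℝ) * (τ * (Real.log (M * r : ℕ)) ^ 10) ≤ H * (τ * (Real.log n) ^ 10) :=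
        mul_le_mul_of_nonneg_left a2 (by positivity)
      have b2 : 0 ≤ ρ2 * (64 * H * (Q : ℝ) ^ (-(1 / 8) : ℝ)) := by positivity
      have b3 : 0 ≤ C1 * H * θ := by positivity
      have b4 : T * H = ρ2 * (κ * H * (1 / 2 * g) - C1 * H * (Q : ℝ) ^ (-(1 / 8) : ℝ)) -
          ρ2 * (64 * H * (Q : ℝ) ^ (-(1 / 8) : ℝ)) - H * (τ * (Real.log n) ^ 10) -
          C1 * H * θ - 64 * H * θ := by
        rw [hT]; ring
      rw [b4]
      linarith
    have hcd0 : 0 ≤ (gdeg n r x y0 : ℝ) * (Real.log (2 * n)) ^ 2 := by positivity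
    by_cases hT0 : T ≤ 0
    · exact (mul_nonpos_of_nonpos_of_nonneg hT0 (by positivity)).trans hcd0
    · push Not at hT0
      calc T * (n / (64 * r)) ≤ T * H := mul_le_mul_of_nonneg_left hHn hT0.le
        _ ≤ _ := a5
        _ ≤ _ := hcd

end Pool.Agent.CubeBal
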